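import Pool.Agent.Lib.MP_ed987a_lc.PT.MDefs

/-!
# TASK M1: motions

Everything by the cases of `m.s` and `m.r` (`fin_cases`, `decide`) and ring identities in the two coordinates.
(`cell_co`) `m.pnt (p + co j) = m.pnt p + (co j).1 • vec (m.dir 0) + (co j).2 • vec (m.dir 1)`, and for all `s, r, j` (decide)
`(co j).1 • vec (dir 0) + (co j).2 • vec (dir 1) + co (quad 0) = co (quad j)`. (`pnt_vec`) the same with `vec d`.
(`quad_dir`) if `m.s = false`: `quad d = dir d`; if `m.s = true`: `quad (d + 3) = dir d` and `quad d = dir d + 3`.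
(`exists_mot`) the eight matrices `(a, b; c, d)`; the translation is chosen such that the cell `0` goes to `(u, v)`: `m.t = (u, v) - co (m.quad 0)`.
(`mot_iso`) the converse. (`Mot.exists_comp`, `Mot.exists_inv`) via the matrices, or directly: `s = xor`, ... .
-/

set_option autoImplicit false

namespace Pool.Agent.PT

/-- the linear part -/
def M1_L (m : Mot) (p : V) : V := p.1 • vec (m.dir 0) + p.2 • vec (m.dir 1)

theorem M1_pnt (m : Mot) (p : V) : m.pnt p = M1_L m p + m.t := rfl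

theorem M1_L_add (m : Mot) (p q : V) : M1_L m (p + q) = M1_L m p + M1_L m q := by
  unfold M1_L
  rw [Prod.fst_add, Prod.snd_add, add_smul, add_smul]
  abel

theorem M1_L_smul (m : Mot) (a : ℤ) (p : V) : M1_L m (a • p) = a • M1_L m p := by
  unfold M1_L
  rw [Prod.smul_fst, Prod.smul_snd, smul_add, smul_smul, smul_smul]
  rfl

theorem M1_L_neg (m : Mot) (p : V) : M1_L m (-p) = -M1_L m p := by
  have h := M1_L_smul m (-1) p
  rwa [neg_one_smul, neg_one_smul] at h

theorem M1_vec (s : Bool) (r d : Fin 4) (t : V) : M1_L ⟨s, r, t⟩ (vec d) = vec ((Mot.mk s r t).dir d) := by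
  unfold M1_L Mot.dir
  simp only
  revert s r d
  decide

theorem M1_co (s : Bool) (r j : Fin 4) (t : V) : M1_L ⟨s, r, t⟩ (co j) + co ((Mot.mk s r t).quad 0) =
    co ((Mot.mk s r t).quad j) := by
  unfold M1_L Mot.dir Mot.quad
  simp only
  revert s r j
  decide

theorem pnt_vec (m : Mot) (p : V) (d : Fin 4) : m.pnt (p + vec d) = m.pnt p + vec (m.dir d) := by
  rw [M1_pnt, M1_pnt, M1_L_add]
  have h : M1_L m (vec d) = vec (m.dir d) := M1_vec m.s m.r d m.t
  rw [h]
  abel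

theorem cell_co (m : Mot) (p : V) (j : Fin 4) : m.cell (p + co j) = m.pnt p + co (m.quad j) := by
  unfold Mot.cell
  rw [M1_pnt, M1_pnt, M1_L_add]
  have h : M1_L m (co j) + co (m.quad 0) = co (m.quad j) := M1_co m.s m.r j m.t
  rw [← h]
  abel

/-- the inverse direction parameter -/
def M1_ri (m : Mot) : Fin 4 := if m.s then m.r else -m.r

/-- the inverse motion -/
def M1_inv (m : Mot) : Mot := ⟨m.s, M1_ri m, -M1_L ⟨m.s, M1_ri m, 0⟩ m.t⟩

theorem M1_dir1 (m : Mot) (d : Fin 4) : (M1_inv m).dir (m.dir d) = d := by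
  obtain ⟨s, r, t⟩ := m
  unfold M1_inv M1_ri Mot.dir
  simp only
  revert s r d
  decide

theorem M1_dir2 (m : Mot) (d : Fin 4) : m.dir ((M1_inv m).dir d) = d := by
  obtain ⟨s, r, t⟩ := m
  unfold M1_inv M1_ri Mot.dir
  simp only
  revert s r d
  decide

theorem M1_quad1 (m : Mot) (d : Fin 4) : (M1_inv m).quad (m.quad d) = d := by
  obtain ⟨s, r, t⟩ := m
  unfold M1_inv M1_ri Mot.quad
  simp only
  revert s r d
  decide

theorem M1_quad2 (m : Mot) (d : Fin 4) : m.quad ((M1_inv m).quad d) = d := by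
  obtain ⟨s, r, t⟩ := m
  unfold M1_inv M1_ri Mot.quad
  simp only
  revert s r d
  decide

theorem M1_split (p : V) : p.1 • vec 0 + p.2 • vec 1 = p := by
  obtain ⟨x, y⟩ := p
  simp [vec]

theorem M1_LL (m m' : Mot) (h : ∀ d, m'.dir (m.dir d) = d) (p : V) : M1_L m' (M1_L m p) = p := by
  conv_lhs => rw [M1_L.eq_1 m p]
  rw [M1_L_add, M1_L_smul, M1_L_smul]
  have h1 : ∀ d, M1_L m' (vec d) = vec (m'.dir d) := fun d => M1_vec m'.s m'.r d m'.t
  rw [h1, h1, h, h]
  exact M1_split p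

theorem M1_L_inv (m : Mot) (p : V) : M1_L ⟨m.s, M1_ri m, 0⟩ p = M1_L (M1_inv m) p := rfl

theorem M1_pnt1 (m : Mot) (p : V) : (M1_inv m).pnt (m.pnt p) = p := by
  rw [M1_pnt, M1_pnt m p, M1_L_add, M1_LL m (M1_inv m) (M1_dir1 m)]
  change p + M1_L (M1_inv m) m.t + -M1_L (M1_inv m) m.t = p
  abel

theorem M1_pnt2 (m : Mot) (p : V) : m.pnt ((M1_inv m).pnt p) = p := by
  rw [M1_pnt, M1_pnt (M1_inv m) p, M1_L_add, M1_LL (M1_inv m) m (M1_dir2 m)]
  have h : M1_L m (M1_inv m).t = -m.t := by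
    change M1_L m (-M1_L (M1_inv m) m.t) = -m.t
    rw [M1_L_neg, M1_LL (M1_inv m) m (M1_dir2 m)]
  rw [h]
  abel

theorem M1_co0 (p : V) : p + co 0 = p := by
  have h : co 0 = 0 := by decide
  rw [h, add_zero]

theorem M1_cell1 (m : Mot) (c : V) : (M1_inv m).cell (m.cell c) = c := by
  have h : m.cell c = m.pnt c + co (m.quad 0) := rfl
  rw [h, cell_co, M1_pnt1, M1_quad1, M1_co0]

theorem M1_cell2 (m : Mot) (c : V) : m.cell ((M1_inv m).cell c) = c := by
  have h : (M1_inv m).cell c = (M1_inv m).pnt c + co ((M1_inv m).quad 0) := rfl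
  rw [h, cell_co, M1_pnt2, M1_quad2, M1_co0]

theorem pnt_inj (m : Mot) : Function.Injective m.pnt :=
  Function.LeftInverse.injective (g := (M1_inv m).pnt) (M1_pnt1 m)

theorem pnt_surj (m : Mot) : Function.Surjective m.pnt :=
  fun p => ⟨_, M1_pnt2 m p⟩

theorem cell_inj (m : Mot) : Function.Injective m.cell :=
  Function.LeftInverse.injective (g := (M1_inv m).cell) (M1_cell1 m)

theorem cell_surj (m : Mot) : Function.Surjective m.cell :=
  fun p => ⟨_, M1_cell2 m p⟩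

theorem dir_inj (m : Mot) : Function.Injective m.dir :=
  Function.LeftInverse.injective (g := (M1_inv m).dir) (M1_dir1 m)

theorem dir_surj (m : Mot) : Function.Surjective m.dir :=
  fun p => ⟨_, M1_dir2 m p⟩

theorem quad_surj (m : Mot) : Function.Surjective m.quad :=
  fun p => ⟨_, M1_quad2 m p⟩

theorem dir_add_two (m : Mot) (d : Fin 4) : m.dir (d + 2) = m.dir d + 2 := by
  obtain ⟨s, r, t⟩ := m
  unfold Mot.dir
  simp only
  revert s r d
  decide

/-- quadrants and directions -/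
theorem M1_qd (m : Mot) (d : Fin 4) :
    (m.quad d = m.dir d ∧ m.quad (d + 3) = m.dir d + 3) ∨
      (m.quad (d + 3) = m.dir d ∧ m.quad d = m.dir d + 3) := by
  obtain ⟨s, r, t⟩ := m
  unfold Mot.dir Mot.quad
  simp only
  revert s r d
  decide

theorem BE_cell (m : Mot) (S : Set V) (p : V) (d : Fin 4) : BE (m.cell '' S) (m.pnt p) (m.dir d) ↔ BE S p d := by
  have h : ∀ c, m.cell c ∈ m.cell '' S ↔ c ∈ S := fun c => (cell_inj m).mem_set_image
  unfold BE
  rcases M1_qd m d with ⟨h1, h2⟩ | ⟨h1, h2⟩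
  · rw [← h2, ← h1, ← cell_co, ← cell_co, h, h]
  · rw [← h2, ← h1, ← cell_co, ← cell_co, h, h]
    exact not_congr ⟨Iff.symm, Iff.symm⟩

theorem M1_adj (m : Mot) (c c' : V) (h : Adj c c') : Adj (m.cell c) (m.cell c') := by
  obtain ⟨p, d, rfl, rfl⟩ := (adj_edge c c').1 h
  rw [cell_co, cell_co]
  rcases M1_qd m d with ⟨h1, h2⟩ | ⟨h1, h2⟩
  · rw [h1, h2]
    exact (adj_edge _ _).2 ⟨_, _, rfl, rfl⟩
  · rw [h1, h2]
    exact Adj.symm ((adj_edge _ _).2 ⟨_, _, rfl, rfl⟩)

theorem adj_cell (m : Mot) (c c' : V) : Adj (m.cell c) (m.cell c') ↔ Adj c c' := by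
  constructor
  · intro h
    have h1 := M1_adj (M1_inv m) _ _ h
    rwa [M1_cell1, M1_cell1] at h1
  · exact M1_adj m c c'

theorem M1_sq {a : ℤ} (h : a ^ 2 = 1) : a = 1 ∨ a = -1 := by
  have h1 : (a - 1) * (a + 1) = 0 := by linear_combination h
  rcases mul_eq_zero.1 h1 with h2 | h2
  · left; omega
  · right; omega

theorem M1_orth {a b c d : ℤ} (h : IsOrth a b c d) : ∃ (s : Bool) (r : Fin 4),
    vec ((Mot.mk s r 0).dir 0) = (a, c) ∧ vec ((Mot.mk s r 0).dir 1) = (b, d) := by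
  rcases h with ⟨rfl, rfl, ha, hd⟩ | ⟨rfl, rfl, hb, hc⟩
  · rcases M1_sq ha with rfl | rfl <;>
      rcases M1_sq hd with rfl | rfl
    · exact ⟨false, 0, by decide, by decide⟩
    · exact ⟨true, 0, by decide, by decide⟩
    · exact ⟨true, 2, by decide, by decide⟩
    · exact ⟨false, 2, by decide, by decide⟩
  · rcases M1_sq hb with rfl | rfl <;>
      rcases M1_sq hc with rfl | rfl
    · exact ⟨true, 1, by decide, by decide⟩
    · exact ⟨false, 3, by decide, by decide⟩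
    · exact ⟨false, 1, by decide, by decide⟩
    · exact ⟨true, 3, by decide, by decide⟩

theorem exists_mot {a b c d : ℤ} (u v : ℤ) (h : IsOrth a b c d) :
    ∃ m : Mot, ∀ p : V, (a * p.1 + b * p.2 + u, c * p.1 + d * p.2 + v) = m.cell p := by
  obtain ⟨s, r, h0, h1⟩ := M1_orth h
  refine ⟨⟨s, r, (u, v) - co ((Mot.mk s r 0).quad 0)⟩, fun p => ?_⟩
  have e : (Mot.mk s r ((u, v) - co ((Mot.mk s r 0).quad 0))).cell p =
      (p.1 • vec ((Mot.mk s r 0).dir 0) + p.2 • vec ((Mot.mk s r 0).dir 1) +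
        ((u, v) - co ((Mot.mk s r 0).quad 0))) + co ((Mot.mk s r 0).quad 0) := rfl
  have e2 : p.1 • (a, c) + p.2 • (b, d) + ((u, v) - co ((Mot.mk s r 0).quad 0)) + co ((Mot.mk s r 0).quad 0) =
      p.1 • (a, c) + p.2 • (b, d) + (u, v) := by abel
  rw [e, h0, h1, e2]
  refine Prod.ext ?_ ?_
  · simp only [Prod.smul_mk, Prod.mk_add_mk, smul_eq_mul]
    ring
  · simp only [Prod.smul_mk, Prod.mk_add_mk, smul_eq_mul]
    ring

theorem mot_iso (m : Mot) : ∃ a b c d u v : ℤ, IsOrth a b c d ∧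
    ∀ p : V, m.cell p = (a * p.1 + b * p.2 + u, c * p.1 + d * p.2 + v) := by
  refine ⟨(vec (m.dir 0)).1, (vec (m.dir 1)).1, (vec (m.dir 0)).2, (vec (m.dir 1)).2,
    (m.t + co (m.quad 0)).1, (m.t + co (m.quad 0)).2, ?_, fun p => ?_⟩
  · obtain ⟨s, r, t⟩ := m
    unfold IsOrth Mot.dir
    simp only
    revert s r
    decide
  · have e : m.cell p = p.1 • vec (m.dir 0) + p.2 • vec (m.dir 1) + m.t + co (m.quad 0) := rfl
    rw [e]
    refine Prod.ext ?_ ?_
    · simp only [Prod.fst_add, Prod.smul_fst, smul_eq_mul]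
      ring
    · simp only [Prod.snd_add, Prod.smul_snd, smul_eq_mul]
      ring

/-- the inverse motion; cells and points -/
theorem exists_inv (m : Mot) : ∃ m' : Mot, (∀ c, m'.cell (m.cell c) = c) ∧ (∀ c, m.cell (m'.cell c) = c) ∧
    (∀ p, m'.pnt (m.pnt p) = p) ∧ ∀ d, m'.dir (m.dir d) = d :=
  ⟨M1_inv m, M1_cell1 m, M1_cell2 m, M1_pnt1 m, M1_dir1 m⟩

theorem M1_orth_mul {a b c d a' b' c' d' : ℤ} (h : IsOrth a b c d) (h' : IsOrth a' b' c' d') :
    IsOrth (a * a' + b * c') (a * b' + b * d') (c * a' + d * c') (c * b' + d * d') := by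
  unfold IsOrth at *
  rcases h with ⟨rfl, rfl, ha, hd⟩ | ⟨rfl, rfl, hb, hc⟩ <;>
    rcases h' with ⟨rfl, rfl, ha', hd'⟩ | ⟨rfl, rfl, hb', hc'⟩
  · left
    refine ⟨by ring, by ring, ?_, ?_⟩
    · linear_combination a' ^ 2 * ha + ha'
    · linear_combination d' ^ 2 * hd + hd'
  · right
    refine ⟨by ring, by ring, ?_, ?_⟩
    · linear_combination b' ^ 2 * ha + hb'
    · linear_combination c' ^ 2 * hd + hc'
  · right
    refine ⟨by ring, by ring, ?_, ?_⟩
    · linear_combination d' ^ 2 * hb + hd'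
    · linear_combination a' ^ 2 * hc + ha'
  · left
    refine ⟨by ring, by ring, ?_, ?_⟩
    · linear_combination c' ^ 2 * hb + hc'
    · linear_combination b' ^ 2 * hc + hb'

theorem exists_comp (m m' : Mot) : ∃ m'' : Mot, ∀ c, m''.cell c = m.cell (m'.cell c) := by
  obtain ⟨a, b, c, d, u, v, h, e⟩ := mot_iso m
  obtain ⟨a', b', c', d', u', v', h', e'⟩ := mot_iso m'
  obtain ⟨m'', h''⟩ := exists_mot (a * u' + b * v' + u) (c * u' + d * v' + v) (M1_orth_mul h h')
  refine ⟨m'', fun q => ?_⟩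
  rw [← h'', e, e']
  refine Prod.ext ?_ ?_
  · simp only
    ring
  · simp only
    ring

/-- a tiling in the sense of the frozen statements is a tiling by motions -/
theorem Tiles.til {S : Set V} (h : Tiles S) : ∃ T, Til S T := by
  obtain ⟨T, h1, h2⟩ := h
  refine ⟨T, ⟨fun t ht => ?_, h2⟩⟩
  obtain ⟨a, b, c, d, u, v, ho, rfl⟩ := h1 t ht
  obtain ⟨m, hm⟩ := exists_mot u v ho
  exact ⟨m, Set.image_congr fun p _ => hm p⟩

end Pool.Agent.PT
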