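import Pool.Agent.Lib.MP_ed987a_lc.PT.Bas

/-!
# Motions of the grid: definitions

`m.s = false`: rotation, the direction `d` goes to `d + m.r`; `m.s = true`: reflection, `d` goes to `m.r - d`.
-/

set_option autoImplicit false

namespace Pool.Agent.PT

/-- an isometry of the grid -/
structure Mot where
  s : Bool
  r : Fin 4
  t : V

/-- the image of a direction -/
def Mot.dir (m : Mot) (d : Fin 4) : Fin 4 := if m.s then m.r - d else d + m.r

/-- the image of a quadrant -/
def Mot.quad (m : Mot) (j : Fin 4) : Fin 4 := if m.s then m.r - 1 - j else j + m.r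

/-- the image of a lattice point -/
def Mot.pnt (m : Mot) (p : V) : V := p.1 • vec (m.dir 0) + p.2 • vec (m.dir 1) + m.t

/-- the image of a cell -/
def Mot.cell (m : Mot) (c : V) : V := m.pnt c + co (m.quad 0)

/-- a tiling by copies of `S` -/
structure Til (S : Set V) (T : Set (Set V)) : Prop where
  img : ∀ t ∈ T, ∃ m : Mot, t = m.cell '' S
  uni : ∀ p : V, ∃! t : Set V, t ∈ T ∧ p ∈ t

/-- two cells are in the same tile -/
def Same (T : Set (Set V)) (c c' : V) : Prop := ∃ t ∈ T, c ∈ t ∧ c' ∈ t

/-- the edge from `v` in the direction `d` separates two tiles -/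
def Sep (T : Set (Set V)) (v : V) (d : Fin 4) : Prop := ¬ Same T (v + co d) (v + co (d + 3))

open Classical in
/-- the number of edges at `v` which separate tiles -/
noncomputable def kT (T : Set (Set V)) (v : V) : ℕ := (Finset.univ.filter fun d => Sep T v d).card

/-- the junctions (points with at least three separating edges) on the tile `t` -/
def Jn (T : Set (Set V)) (t : Set V) : Set V := {v | 3 ≤ kT T v ∧ ∃ j, v + co j ∈ t}

end Pool.Agent.PT
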