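import Pool.Agent.Lib.MP_ed987a_lc.Mg.G002

/-!
# TASK PT A4: number of cells, injectivity of the code (easy to medium)

`col_ncard`: `col x b h` is the image of `Finset.range h` under `i ↦ (x, b + i)`. `colset_finite`, `colset_ncard`: induction, the two parts of the union are disjoint by `colset_ge`.
`shift_colset`: induction on `l`.

PROOF of `colset_inj`. Induction on `l`, for all `x b b' l'`. Both lists are nonempty: `l = c :: r`, `l' = c' :: r'`. The cells with first coordinate `x` are `[b, b + c.1)` and `[b', b' + c'.1)` (nonempty intervals), so `b = b'`, `c.1 = c'.1`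
(compare the least and greatest elements). The cells with first coordinate `≥ x + 1` are `colset (x + 1) b1 r`, `colset (x + 1) b1' r'` (`colset_ge`), `b1 = b + c.1 - 1 - c.2`. If `r = []` this set is empty, so `r' = []`
(a correct code has a nonempty set) and `c.2 = 0 = c'.2`; the same if `r' = []`. If both are nonempty they are correct codes, so by induction `b1 = b1'`, `r = r'`, and `c.2 = c'.2`.

PROOF of `colset_shift_inj`. `shift t (colset 0 0 l) = colset t.1 t.2 l`. The least first coordinate of `colset x b l` is `x` (`colset_ge`, and `(x, b)` is in it), so `t.1 = 0`; now `colset_inj`.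
-/

set_option autoImplicit false

namespace Pool.Agent.PT

theorem A4_col_eq (x b : ℤ) (h : ℕ) :
    col x b h = (((Finset.range h).image (fun i : ℕ => ((x, b + (i : ℤ)) : V)) : Finset V) : Set V) := by
  ext p
  obtain ⟨u, v⟩ := p
  simp only [col, Set.mem_setOf_eq, Finset.coe_image, Finset.coe_range, Set.mem_image, Set.mem_Iio, Prod.mk.injEq]
  constructor
  · rintro ⟨h1, h2, h3⟩
    exact ⟨(v - b).toNat, by omega, h1.symm, by omega⟩
  · rintro ⟨i, h1, h2, h3⟩
    exact ⟨h2.symm, by omega, by omega⟩

theorem A4_mem_first {x b y : ℤ} {c : ℕ × ℕ} {r : List (ℕ × ℕ)} :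
    ((x, y) : V) ∈ colset x b (c :: r) ↔ b ≤ y ∧ y < b + c.1 := by
  constructor
  · intro h
    rcases h with h | h
    · exact h.2
    · have h1 := colset_ge h
      simp only at h1
      omega
  · intro h
    exact Or.inl ⟨rfl, h.1, h.2⟩

theorem A4_mem_rest {x b : ℤ} {c : ℕ × ℕ} {r : List (ℕ × ℕ)} {p : V} (hp : x + 1 ≤ p.1) :
    p ∈ colset x b (c :: r) ↔ p ∈ colset (x + 1) (b + c.1 - 1 - c.2) r := by
  constructor
  · intro h
    rcases h with h | h
    · have h1 : p.1 = x := h.1
      omega
    · exact h
  · intro h
    exact Or.inr h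

theorem A4_first_mem {x b : ℤ} {l : List (ℕ × ℕ)} (h : CCok l) : ((x, b) : V) ∈ colset x b l := by
  match l, h with
  | [c], h =>
    have h1 : 1 ≤ c.1 := h.1
    exact A4_mem_first.mpr ⟨le_refl _, by omega⟩
  | c :: c' :: r, h =>
    have h1 : 1 ≤ c.1 := h.1
    exact A4_mem_first.mpr ⟨le_refl _, by omega⟩

theorem col_finite (x b : ℤ) (h : ℕ) : (col x b h).Finite := by
  rw [A4_col_eq]
  exact Finset.finite_toSet _

theorem col_ncard (x b : ℤ) (h : ℕ) : (col x b h).ncard = h := by
  rw [A4_col_eq, Set.ncard_coe_finset, Finset.card_image_of_injective, Finset.card_range]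
  intro i j h
  simp only [Prod.mk.injEq, true_and] at h
  omega

theorem colset_finite (x b : ℤ) (l : List (ℕ × ℕ)) : (colset x b l).Finite := by
  induction l generalizing x b with
  | nil => exact Set.finite_empty
  | cons c r ih => exact (col_finite x b c.1).union (ih _ _)

theorem colset_ncard (x b : ℤ) (l : List (ℕ × ℕ)) : (colset x b l).ncard = area l := by
  induction l generalizing x b with
  | nil =>
    show (∅ : Set V).ncard = _
    simp [area]
  | cons c r ih =>
    show (col x b c.1 ∪ colset (x + 1) (b + c.1 - 1 - c.2) r).ncard = _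
    have hd : Disjoint (col x b c.1) (colset (x + 1) (b + c.1 - 1 - c.2) r) := by
      rw [Set.disjoint_left]
      intro p h1 h2
      have h3 : p.1 = x := h1.1
      have h4 := colset_ge h2
      omega
    rw [Set.ncard_union_eq hd (col_finite _ _ _) (colset_finite _ _ _), col_ncard, ih]
    simp [area]

theorem shift_colset (t : V) (x b : ℤ) (l : List (ℕ × ℕ)) :
    shift t (colset x b l) = colset (x + t.1) (b + t.2) l := by
  induction l generalizing x b with
  | nil =>
    show (fun p => p + t) '' (∅ : Set V) = ∅
    exact Set.image_empty _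
  | cons c r ih =>
    show (fun p => p + t) '' (col x b c.1 ∪ colset (x + 1) (b + c.1 - 1 - c.2) r) =
      col (x + t.1) (b + t.2) c.1 ∪ colset (x + t.1 + 1) (b + t.2 + c.1 - 1 - c.2) r
    rw [Set.image_union]
    have h1 : (fun p => p + t) '' colset (x + 1) (b + c.1 - 1 - c.2) r =
        colset (x + t.1 + 1) (b + t.2 + c.1 - 1 - c.2) r := by
      have h2 := ih (x + 1) (b + c.1 - 1 - c.2)
      have e1 : x + 1 + t.1 = x + t.1 + 1 := by ring
      have e2 : b + (c.1 : ℤ) - 1 - c.2 + t.2 = b + t.2 + c.1 - 1 - c.2 := by ring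
      rw [e1, e2] at h2
      exact h2
    rw [h1]
    congr 1
    ext p
    obtain ⟨u, v⟩ := p
    obtain ⟨t1, t2⟩ := t
    simp only [col, Set.mem_image, Set.mem_setOf_eq]
    constructor
    · rintro ⟨q, ⟨h1, h2, h3⟩, h4⟩
      obtain ⟨q1, q2⟩ := q
      simp only [Prod.mk_add_mk, Prod.mk.injEq] at h1 h2 h3 h4
      exact ⟨by omega, by omega, by omega⟩
    · rintro ⟨h1, h2, h3⟩
      refine ⟨(u - t1, v - t2), ⟨by simp only; omega, by simp only; omega, by simp only; omega⟩, ?_⟩
      simp

theorem colset_inj {l l' : List (ℕ × ℕ)} (h : CCok l) (h' : CCok l') {x b b' : ℤ}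
    (he : colset x b l = colset x b' l') : b = b' ∧ l = l' := by
  induction l generalizing x b b' l' with
  | nil => exact absurd h (by simp [CCok])
  | cons c r ih =>
    match l', h' with
    | c' :: r', h' =>
      have hc : 1 ≤ c.1 := by
        cases r with
        | nil => exact h.1
        | cons a r1 => exact h.1
      have hc' : 1 ≤ c'.1 := by
        cases r' with
        | nil => exact h'.1
        | cons a r1 => exact h'.1
      have h0 : ∀ y : ℤ, (b ≤ y ∧ y < b + c.1) ↔ (b' ≤ y ∧ y < b' + c'.1) := by
        intro y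
        rw [← A4_mem_first (x := x) (r := r), ← A4_mem_first (x := x) (r := r'), he]
      have h1 := h0 b
      have h2 := h0 b'
      have h3 := h0 (b + c.1 - 1)
      have h4 := h0 (b' + c'.1 - 1)
      have hb : b = b' := by omega
      subst hb
      have hh : c.1 = c'.1 := by omega
      have hr : colset (x + 1) (b + c.1 - 1 - c.2) r = colset (x + 1) (b + c'.1 - 1 - c'.2) r' := by
        ext p
        by_cases hp : x + 1 ≤ p.1
        · rw [← A4_mem_rest hp, ← A4_mem_rest hp, he]
        · constructor
          · intro h5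
            exact absurd (colset_ge h5) hp
          · intro h5
            exact absurd (colset_ge h5) hp
      refine ⟨rfl, ?_⟩
      obtain ⟨c1, c2⟩ := c
      obtain ⟨c1', c2'⟩ := c'
      simp only at hc hc' hh hr
      subst hh
      match r, r' with
      | [], [] =>
        have h5 : c2 = 0 := h.2
        have h6 : c2' = 0 := h'.2
        rw [h5, h6]
      | [], a' :: s' =>
        have h5 : CCok (a' :: s') := h'.2.2
        have h6 := A4_first_mem (x := x + 1) (b := b + c1 - 1 - c2') h5
        rw [← hr] at h6
        exact absurd h6 (Set.notMem_empty _)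
      | a :: s, [] =>
        have h5 : CCok (a :: s) := h.2.2
        have h6 := A4_first_mem (x := x + 1) (b := b + c1 - 1 - c2) h5
        rw [hr] at h6
        exact absurd h6 (Set.notMem_empty _)
      | a :: s, a' :: s' =>
        have h5 : CCok (a :: s) := h.2.2
        have h6 : CCok (a' :: s') := h'.2.2
        have h7 := ih h5 h6 hr
        have h8 : c2 = c2' := by
          have := h7.1
          omega
        rw [h8, h7.2]

theorem colset_shift_inj {l l' : List (ℕ × ℕ)} (h : CCok l) (h' : CCok l') {t : V}
    (he : shift t (colset 0 0 l) = colset 0 0 l') : l = l' := by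
  rw [shift_colset] at he
  have h1 : ((0 + t.1, 0 + t.2) : V) ∈ colset (0 + t.1) (0 + t.2) l := A4_first_mem h
  have h2 : ((0, 0) : V) ∈ colset 0 0 l' := A4_first_mem h'
  have h3 : 0 ≤ 0 + t.1 := by
    rw [he] at h1
    exact colset_ge h1
  have h4 : 0 + t.1 ≤ 0 := by
    rw [← he] at h2
    exact colset_ge h2
  have h5 : 0 + t.1 = 0 := le_antisymm h4 h3
  rw [h5] at he
  exact (colset_inj h h' he).2

end Pool.Agent.PT
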