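import Pool.Agent.Lib.MP_ed987a_lc.PT.A5

/-!
# TASK PT A6: the growth of the number of codes (easy)

PROOF. `x = 3.19`, `y = 1.77`, `c = 1 / (2 * x ^ 8)`. Strong induction: `c * x ^ n ≤ AA n` and `c * y * x ^ n ≤ SS n` for `n ≥ 1`. For `n ≤ 8`: `AA_pos`, `SS_pos` (`c x ^ n ≤ 1/2`, `c y x ^ n ≤ 0.885`).
For `n ≥ 9`: `Icc 1 8 ⊆ Icc 1 (n - 1)`, so `AA n ≥ ∑_{h ≤ 8} ((h - 1) * AA (n - h) + SS (n - h)) ≥ c * x ^ (n - 8) * ∑_{h ≤ 8} x ^ (8 - h) * ((h - 1) + y) ≥ c * x ^ (n - 8) * x ^ 8` and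
`SS n ≥ c * x ^ (n - 8) * ∑_{h ≤ 8} x ^ (8 - h) * h * ((h - 1) + y) ≥ c * x ^ (n - 8) * y * x ^ 8`. The two rational inequalities hold with a margin
(`∑_{h ≤ 8} x ^ (-h) ((h-1) + y) = 1.016..`, `∑_{h ≤ 8} x ^ (-h) h ((h-1) + y) = 1.780.. ≥ 1.77`): `norm_num [Finset.sum_Icc_succ_top]`, or write the 8 terms explicitly.
-/

set_option autoImplicit false

namespace Pool.Agent.PT

private theorem a6_sub (f : ℕ → ℕ) (m : ℕ) :
    ∑ h ∈ Finset.Icc 1 8, f h ≤ ∑ h ∈ Finset.Icc 1 (m + 9 - 1), f h := by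
  apply Finset.sum_le_sum_of_subset
  apply Finset.Icc_subset_Icc le_rfl
  omega

private theorem a6_AA (m : ℕ) :
    SS (m + 8) + (AA (m + 7) + SS (m + 7)) + (2 * AA (m + 6) + SS (m + 6)) + (3 * AA (m + 5) + SS (m + 5)) +
      (4 * AA (m + 4) + SS (m + 4)) + (5 * AA (m + 3) + SS (m + 3)) + (6 * AA (m + 2) + SS (m + 2)) +
      (7 * AA (m + 1) + SS (m + 1)) ≤ AA (m + 9) := by
  have h := le_trans (a6_sub (fun h => (h - 1) * AA (m + 9 - h) + SS (m + 9 - h)) m) (AA_rec (m + 9))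
  rw [show Finset.Icc 1 8 = {1, 2, 3, 4, 5, 6, 7, 8} from rfl] at h
  simp only [Finset.mem_insert, Finset.mem_singleton, Finset.sum_insert, Finset.sum_singleton, Nat.reduceEqDiff,
    or_self, not_false_eq_true, Nat.reduceSubDiff, OfNat.one_ne_ofNat, OfNat.ofNat_ne_one, Nat.add_one_sub_one, Nat.reduceSub,
    Nat.sub_self, Nat.add_sub_cancel] at h
  have e1 : m + 9 - 1 = m + 8 := rfl
  omega

private theorem a6_SS (m : ℕ) :
    SS (m + 8) + 2 * (AA (m + 7) + SS (m + 7)) + 3 * (2 * AA (m + 6) + SS (m + 6)) +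
      4 * (3 * AA (m + 5) + SS (m + 5)) +
      5 * (4 * AA (m + 4) + SS (m + 4)) + 6 * (5 * AA (m + 3) + SS (m + 3)) + 7 * (6 * AA (m + 2) + SS (m + 2)) +
      8 * (7 * AA (m + 1) + SS (m + 1)) ≤ SS (m + 9) := by
  have h := le_trans (a6_sub (fun h => h * ((h - 1) * AA (m + 9 - h) + SS (m + 9 - h))) m) (SS_rec (m + 9))
  rw [show Finset.Icc 1 8 = {1, 2, 3, 4, 5, 6, 7, 8} from rfl] at h
  simp only [Finset.mem_insert, Finset.mem_singleton, Finset.sum_insert, Finset.sum_singleton, Nat.reduceEqDiff,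
    or_self, not_false_eq_true, Nat.reduceSubDiff, OfNat.one_ne_ofNat, OfNat.ofNat_ne_one, Nat.add_one_sub_one, Nat.reduceSub,
    Nat.sub_self, Nat.add_sub_cancel] at h
  have e1 : m + 9 - 1 = m + 8 := rfl
  omega

private theorem a6_key (c : ℝ) (hc : c = 1 / (2 * (3.19 : ℝ) ^ 8)) : ∀ n : ℕ, 1 ≤ n →
    c * (3.19 : ℝ) ^ n ≤ AA n ∧ c * 1.77 * (3.19 : ℝ) ^ n ≤ SS n := by
  have hc0 : 0 < c := by rw [hc]; positivity
  intro n
  induction n using Nat.strong_induction_on with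
  | _ n ih =>
    intro hn
    by_cases h : n ≤ 8
    · have h1 : c * (3.19 : ℝ) ^ n ≤ 1 / 2 := by
        have h2 : (3.19 : ℝ) ^ n ≤ (3.19 : ℝ) ^ 8 := pow_le_pow_right₀ (by norm_num) h
        have h3 : c * (3.19 : ℝ) ^ 8 = 1 / 2 := by
          rw [hc]
          norm_num
        calc c * (3.19 : ℝ) ^ n ≤ c * (3.19 : ℝ) ^ 8 := mul_le_mul_of_nonneg_left h2 hc0.le
          _ = 1 / 2 := h3
      have h4 : (1 : ℝ) ≤ AA n := by exact_mod_cast AA_pos hn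
      have h5 : (1 : ℝ) ≤ SS n := by exact_mod_cast SS_pos hn
      constructor
      · linarith
      · have h6 : c * 1.77 * (3.19 : ℝ) ^ n = 1.77 * (c * (3.19 : ℝ) ^ n) := by ring
        rw [h6]
        linarith
    · obtain ⟨m, rfl⟩ : ∃ m, n = m + 9 := ⟨n - 9, by omega⟩
      have i1 := ih (m + 1) (by omega) (by omega)
      have i2 := ih (m + 2) (by omega) (by omega)
      have i3 := ih (m + 3) (by omega) (by omega)
      have i4 := ih (m + 4) (by omega) (by omega)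
      have i5 := ih (m + 5) (by omega) (by omega)
      have i6 := ih (m + 6) (by omega) (by omega)
      have i7 := ih (m + 7) (by omega) (by omega)
      have i8 := ih (m + 8) (by omega) (by omega)
      have hA : (SS (m + 8) : ℝ) + (AA (m + 7) + SS (m + 7)) + (2 * AA (m + 6) + SS (m + 6)) +
          (3 * AA (m + 5) + SS (m + 5)) +
          (4 * AA (m + 4) + SS (m + 4)) + (5 * AA (m + 3) + SS (m + 3)) + (6 * AA (m + 2) + SS (m + 2)) +
          (7 * AA (m + 1) + SS (m + 1)) ≤ AA (m + 9) := by exact_mod_cast a6_AA m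
      have hS : (SS (m + 8) : ℝ) + 2 * (AA (m + 7) + SS (m + 7)) + 3 * (2 * AA (m + 6) + SS (m + 6)) +
          4 * (3 * AA (m + 5) + SS (m + 5)) +
          5 * (4 * AA (m + 4) + SS (m + 4)) + 6 * (5 * AA (m + 3) + SS (m + 3)) +
          7 * (6 * AA (m + 2) + SS (m + 2)) +
          8 * (7 * AA (m + 1) + SS (m + 1)) ≤ SS (m + 9) := by exact_mod_cast a6_SS m
      have hB : 0 < c * (3.19 : ℝ) ^ m := by positivity
      simp only [pow_add _ m, ← mul_assoc] at i1 i2 i3 i4 i5 i6 i7 i8 ⊢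
      simp only [mul_right_comm c (1.77 : ℝ) ((3.19 : ℝ) ^ m)] at i1 i2 i3 i4 i5 i6 i7 i8 ⊢
      generalize c * (3.19 : ℝ) ^ m = B at *
      norm_num only at i1 i2 i3 i4 i5 i6 i7 i8 ⊢
      obtain ⟨j1, k1⟩ := i1
      obtain ⟨j2, k2⟩ := i2
      obtain ⟨j3, k3⟩ := i3
      obtain ⟨j4, k4⟩ := i4
      obtain ⟨j5, k5⟩ := i5
      obtain ⟨j6, k6⟩ := i6
      obtain ⟨j7, k7⟩ := i7
      obtain ⟨j8, k8⟩ := i8
      constructor
      · linarith
      · linarith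

theorem AA_lower : ∃ c : ℝ, 0 < c ∧ ∀ n : ℕ, 1 ≤ n → c * (3.19 : ℝ) ^ n ≤ AA n := by
  refine ⟨1 / (2 * (3.19 : ℝ) ^ 8), by positivity, fun n hn => ?_⟩
  exact (a6_key _ rfl n hn).1

end Pool.Agent.PT
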