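import Pool.Agent.Lib.MP_ed987a_lc.PT.WDefs

/-!
# TASK PT W9: the number of sets of positive integers with small sum (easy)

PROOF of `sum_ge_card`. A finite set `A` of positive integers has `∑ A ≥ 1 + 2 + ... + |A|`, so `|A| * (|A| + 1) ≤ 2 ∑ A`: induction on `|A|`, remove the maximum `m ≥ |A|`
(`A ⊆ Icc 1 m`, so `|A| ≤ m`). (Mathlib: `Finset.sum_range_id_le_sum..` or similar may exist.)

PROOF of `qn_le`. Let `A ⊆ [1, n]`, `∑ A ≤ n`, `k = |A|`: `k ^ 2 ≤ 2 n`, so `k ≤ r := Nat.sqrt (2 * n)`. There is a function `f : Fin r → Fin (n + 1)` whose nonzero values are the elements of `A` (e.g. `f i = A.sort[i]` for `i < k`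
and `0` for the others; or: `A ∪ {0}` is the image of `Fin r ..`, an abstract argument with `Finset.equivFin`). So `A ↦ f` is injective into the functions `Fin r → Fin (n + 1)`, or, the other way,
the image of `(Fin r → Fin (n + 1))` under `f ↦ (image of f).erase 0` contains all such `A`: `qn n ≤ (n + 1) ^ r`.

`qn_mono`: `A ⊆ [1, m] ⊆ [1, n]` and `∑ A ≤ m ≤ n`. `qn_pos`: the empty set.
-/

set_option autoImplicit false

namespace Pool.Agent.PT

theorem sum_ge_card (A : Finset ℕ) (h : ∀ a ∈ A, 1 ≤ a) : A.card * (A.card + 1) ≤ 2 * ∑ a ∈ A, a := by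
  induction A using Finset.induction_on_max with
  | empty => simp
  | insert a s hs ih =>
    have ha : a ∉ s := fun h1 => lt_irrefl a (hs a h1)
    have h2 := ih (fun x hx => h x (Finset.mem_insert_of_mem hx))
    have h3 : s ⊆ Finset.Ico 1 a := by
      intro x hx
      rw [Finset.mem_Ico]
      exact ⟨h x (Finset.mem_insert_of_mem hx), hs x hx⟩
    have h4 := Finset.card_le_card h3
    rw [Nat.card_Ico] at h4
    have h5 := h a (Finset.mem_insert_self a s)
    rw [Finset.card_insert_of_notMem ha, Finset.sum_insert ha]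
    have h6 : (s.card + 1) * (s.card + 1 + 1) = s.card * (s.card + 1) + 2 * (s.card + 1) := by ring
    omega

private theorem W9_surj (n : ℕ) (A : Finset ℕ) (h1 : A ⊆ Finset.Icc 1 n) (r : ℕ) (h2 : A.card ≤ r) :
    ∃ f : Fin r → Fin (n + 1), (Finset.univ.image (fun i => (f i : ℕ))).erase 0 = A := by
  refine ⟨fun i => if h : (i : ℕ) < A.card then
    ⟨(A.equivFin.symm ⟨i, h⟩ : ℕ), ?_⟩ else 0, ?_⟩
  · have := Finset.mem_Icc.1 (h1 (A.equivFin.symm ⟨i, h⟩).2)
    omega
  · ext x
    rw [Finset.mem_erase, Finset.mem_image]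
    constructor
    · rintro ⟨hx, i, -, hi⟩
      beta_reduce at hi
      by_cases h : (i : ℕ) < A.card
      · rw [dif_pos h] at hi
        rw [← hi]
        exact (A.equivFin.symm ⟨i, h⟩).2
      · rw [dif_neg h] at hi
        exact absurd hi.symm (by simpa using hx)
    · intro hx
      have hx1 := Finset.mem_Icc.1 (h1 hx)
      refine ⟨by omega, ⟨(A.equivFin ⟨x, hx⟩ : ℕ), lt_of_lt_of_le (A.equivFin ⟨x, hx⟩).2 h2⟩,
        Finset.mem_univ _, ?_⟩
      beta_reduce
      rw [dif_pos (A.equivFin ⟨x, hx⟩).2]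
      simp

theorem qn_le (n : ℕ) : qn n ≤ (n + 1) ^ Nat.sqrt (2 * n) := by
  have h1 : ((Finset.Icc 1 n).powerset.filter fun A => ∑ a ∈ A, a ≤ n) ⊆
      (Finset.univ : Finset (Fin (Nat.sqrt (2 * n)) → Fin (n + 1))).image
        (fun f => (Finset.univ.image (fun i => (f i : ℕ))).erase 0) := by
    intro A hA
    rw [Finset.mem_filter, Finset.mem_powerset] at hA
    rw [Finset.mem_image]
    have h2 := sum_ge_card A (fun a ha => (Finset.mem_Icc.1 (hA.1 ha)).1)
    have h3 : A.card ≤ Nat.sqrt (2 * n) := by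
      rw [Nat.le_sqrt]
      have h4 : A.card * (A.card + 1) = A.card * A.card + A.card := by ring
      omega
    obtain ⟨f, hf⟩ := W9_surj n A hA.1 _ h3
    exact ⟨f, Finset.mem_univ _, hf⟩
  unfold qn
  refine (Finset.card_le_card h1).trans (Finset.card_image_le.trans ?_)
  rw [Finset.card_univ, Fintype.card_fun, Fintype.card_fin, Fintype.card_fin]

theorem qn_mono {m n : ℕ} (h : m ≤ n) : qn m ≤ qn n := by
  unfold qn
  apply Finset.card_le_card
  intro A hA
  rw [Finset.mem_filter, Finset.mem_powerset] at hA ⊢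
  exact ⟨hA.1.trans (Finset.Icc_subset_Icc_right h), hA.2.trans h⟩

theorem qn_pos (n : ℕ) : 0 < qn n := by
  unfold qn
  apply Finset.card_pos.2
  refine ⟨∅, ?_⟩
  rw [Finset.mem_filter, Finset.mem_powerset]
  simp

end Pool.Agent.PT
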