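import Pool.Agent.Lib.MP_ed987a_lc.PT.Bas

/-!
# TASK T1: the Euler characteristic of a finite set of cells

`chi t` = cells - horizontal adjacencies - vertical adjacencies + full 2 x 2 blocks.
(`chi_erase`) the lexicographically least cell `c` of `t` is not of the form `c' + (1, 0)`, `c' + (0, 1)`, `c' + (1, 1)` with `c' ∈ t`
(such a `c'` is smaller), and no block with base `c' ≠ c` in `t` contains `c` (the other three cells of a block are greater than its
base `c' ∈ t`). So the four finsets for `t` and for `t.erase c` differ only by the element `c`.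
(`chi_union`) no cell of `A` is adjacent to a cell of `B`: so `c ∈ A`, `c + (1, 0) ∈ A ∪ B` implies `c + (1, 0) ∈ A`, and so on; in a block with base
`c ∈ A` the cells `c + (1, 0)`, `c + (0, 1)` are in `A`, so `c + (1, 1)` (adjacent to `c + (1, 0)`) too.
-/

set_option autoImplicit false

namespace Pool.Agent.PT

/-- cells - adjacencies + blocks -/
def chi (t : Finset V) : ℤ :=
  (t.card : ℤ) - (t.filter fun c => c + (1, 0) ∈ t).card - (t.filter fun c => c + (0, 1) ∈ t).card +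
    (t.filter fun c => c + (1, 0) ∈ t ∧ c + (0, 1) ∈ t ∧ c + (1, 1) ∈ t).card

private theorem T1_filter {t : Finset V} {c : V} (hc : c ∈ t) (P Q : V → Prop) [DecidablePred P] [DecidablePred Q]
    (h : ∀ x ∈ t, x ≠ c → (P x ↔ Q x)) :
    ((t.filter P).card : ℤ) = (((t.erase c).filter Q).card : ℤ) + if P c then 1 else 0 := by
  have h1 : (t.erase c).filter Q = (t.erase c).filter P := by
    refine Finset.filter_congr fun x hx => ?_
    rw [Finset.mem_erase] at hx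
    exact (h x hx.2 hx.1).symm
  rw [h1]
  conv_lhs => rw [← Finset.insert_erase hc]
  rw [Finset.filter_insert]
  split_ifs with h2
  · rw [Finset.card_insert_of_notMem]
    · push_cast
      ring
    · simp
  · simp

private theorem T1_union {A B : Finset V} (hd : Disjoint A B) (P PA PB : V → Prop) [DecidablePred P] [DecidablePred PA]
    [DecidablePred PB] (hA : ∀ x ∈ A, (P x ↔ PA x)) (hB : ∀ x ∈ B, (P x ↔ PB x)) :
    (((A ∪ B).filter P).card : ℤ) = ((A.filter PA).card : ℤ) + (B.filter PB).card := by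
  rw [Finset.filter_union, Finset.filter_congr hA, Finset.filter_congr hB, Finset.card_union_of_disjoint]
  · push_cast
    ring
  · exact Finset.disjoint_filter_filter hd

theorem chi_erase {t : Finset V} {c : V} (hc : c ∈ t) (hmin : ∀ c' ∈ t, c.1 < c'.1 ∨ (c.1 = c'.1 ∧ c.2 ≤ c'.2)) :
    chi t = chi (t.erase c) + 1 - (if c + (1, 0) ∈ t then 1 else 0) - (if c + (0, 1) ∈ t then 1 else 0) +
      (if c + (1, 0) ∈ t ∧ c + (0, 1) ∈ t ∧ c + (1, 1) ∈ t then 1 else 0) := by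
  have h1 : ∀ x ∈ t, x + (1, 0) ≠ c := by
    intro x hx h
    have h2 := hmin x hx
    have h3 : x.1 + 1 = c.1 := congrArg Prod.fst h
    omega
  have h2 : ∀ x ∈ t, x + (0, 1) ≠ c := by
    intro x hx h
    have h2 := hmin x hx
    have h3 : x.1 + 0 = c.1 := congrArg Prod.fst h
    have h4 : x.2 + 1 = c.2 := congrArg Prod.snd h
    omega
  have h3 : ∀ x ∈ t, x + (1, 1) ≠ c := by
    intro x hx h
    have h2 := hmin x hx
    have h3 : x.1 + 1 = c.1 := congrArg Prod.fst h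
    omega
  have e0 : (t.card : ℤ) = ((t.erase c).card : ℤ) + 1 := by
    have h4 := Finset.card_erase_add_one hc
    exact_mod_cast h4.symm
  have e1 := T1_filter hc (fun x => x + (1, 0) ∈ t) (fun x => x + (1, 0) ∈ t.erase c) (fun x hx _ => by
    rw [Finset.mem_erase]
    exact ⟨fun h => ⟨h1 x hx, h⟩, fun h => h.2⟩)
  have e2 := T1_filter hc (fun x => x + (0, 1) ∈ t) (fun x => x + (0, 1) ∈ t.erase c) (fun x hx _ => by
    rw [Finset.mem_erase]
    exact ⟨fun h => ⟨h2 x hx, h⟩, fun h => h.2⟩)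
  have e3 := T1_filter hc (fun x => x + (1, 0) ∈ t ∧ x + (0, 1) ∈ t ∧ x + (1, 1) ∈ t)
    (fun x => x + (1, 0) ∈ t.erase c ∧ x + (0, 1) ∈ t.erase c ∧ x + (1, 1) ∈ t.erase c) (fun x hx _ => by
    rw [Finset.mem_erase, Finset.mem_erase, Finset.mem_erase]
    exact ⟨fun h => ⟨⟨h1 x hx, h.1⟩, ⟨h2 x hx, h.2.1⟩, h3 x hx, h.2.2⟩, fun h => ⟨h.1.2, h.2.1.2, h.2.2.2⟩⟩)
  unfold chi
  rw [e0, e1, e2, e3]
  ring

private theorem T1_adj1 (x : V) : Adj x (x + (1, 0)) := by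
  rw [adj_iff]
  exact ⟨0, rfl⟩

private theorem T1_adj2 (x : V) : Adj x (x + (0, 1)) := by
  rw [adj_iff]
  exact ⟨1, rfl⟩

private theorem T1_adj3 (x : V) : Adj (x + (1, 0)) (x + (1, 1)) := by
  rw [adj_iff]
  refine ⟨1, ?_⟩
  rw [add_assoc]
  rfl

theorem chi_union {A B : Finset V} (hd : Disjoint A B) (h : ∀ a ∈ A, ∀ b ∈ B, ¬ Adj a b) :
    chi (A ∪ B) = chi A + chi B := by
  have gen : ∀ (A B : Finset V), (∀ a ∈ A, ∀ b ∈ B, ¬ Adj a b) → ∀ x y, Adj x y → x ∈ A → (y ∈ A ∪ B ↔ y ∈ A) := by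
    intro A B h x y hxy hx
    rw [Finset.mem_union]
    constructor
    · rintro (h1 | h1)
      · exact h1
      · exact absurd hxy (h x hx y h1)
    · exact Or.inl
  have gen3 : ∀ (A B : Finset V), (∀ a ∈ A, ∀ b ∈ B, ¬ Adj a b) → ∀ x ∈ A,
      ((x + (1, 0) ∈ A ∪ B ∧ x + (0, 1) ∈ A ∪ B ∧ x + (1, 1) ∈ A ∪ B) ↔ (x + (1, 0) ∈ A ∧ x + (0, 1) ∈ A ∧ x + (1, 1) ∈ A)) := by
    intro A B h x hx
    rw [gen A B h x _ (T1_adj1 x) hx, gen A B h x _ (T1_adj2 x) hx]
    constructor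
    · rintro ⟨h1, h2, h3⟩
      exact ⟨h1, h2, (gen A B h _ _ (T1_adj3 x) h1).1 h3⟩
    · rintro ⟨h1, h2, h3⟩
      exact ⟨h1, h2, (gen A B h _ _ (T1_adj3 x) h1).2 h3⟩
  have h' : ∀ a ∈ B, ∀ b ∈ A, ¬ Adj a b := fun a ha b hb hab => h b hb a ha hab.symm
  have e0 : ((A ∪ B).card : ℤ) = (A.card : ℤ) + B.card := by
    rw [Finset.card_union_of_disjoint hd]
    push_cast
    ring
  have e1 := T1_union hd (fun x => x + (1, 0) ∈ A ∪ B) (fun x => x + (1, 0) ∈ A) (fun x => x + (1, 0) ∈ B)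
    (fun x hx => gen A B h x _ (T1_adj1 x) hx)
    (fun x hx => by rw [Finset.union_comm]; exact gen B A h' x _ (T1_adj1 x) hx)
  have e2 := T1_union hd (fun x => x + (0, 1) ∈ A ∪ B) (fun x => x + (0, 1) ∈ A) (fun x => x + (0, 1) ∈ B)
    (fun x hx => gen A B h x _ (T1_adj2 x) hx)
    (fun x hx => by rw [Finset.union_comm]; exact gen B A h' x _ (T1_adj2 x) hx)
  have e3 := T1_union hd (fun x => x + (1, 0) ∈ A ∪ B ∧ x + (0, 1) ∈ A ∪ B ∧ x + (1, 1) ∈ A ∪ B)
    (fun x => x + (1, 0) ∈ A ∧ x + (0, 1) ∈ A ∧ x + (1, 1) ∈ A) (fun x => x + (1, 0) ∈ B ∧ x + (0, 1) ∈ B ∧ x + (1, 1) ∈ B)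
    (fun x hx => gen3 A B h x hx)
    (fun x hx => by rw [Finset.union_comm]; exact gen3 B A h' x hx)
  unfold chi
  rw [e0, e1, e2, e3]
  ring

theorem exists_least {t : Finset V} (h : t.Nonempty) :
    ∃ c ∈ t, ∀ c' ∈ t, c.1 < c'.1 ∨ (c.1 = c'.1 ∧ c.2 ≤ c'.2) := by
  obtain ⟨c, hc, hmin⟩ := Finset.exists_min_image t (fun c : V => (toLex c : ℤ ×ₗ ℤ)) h
  refine ⟨c, hc, fun c' hc' => ?_⟩
  have h1 := hmin c' hc'
  rw [Prod.Lex.toLex_le_toLex] at h1
  exact h1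

end Pool.Agent.PT
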