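import Pool.Agent.Lib.MP_ed987a_lc.PT.T3
import Pool.Agent.Lib.MP_ed987a_lc.PT.MDefs

set_option autoImplicit false

namespace Pool.Agent.PT

open Classical in
/-- the weight of the tile `t` at the point `v` -/
noncomputable def wt (T : Set (Set V)) (t : Set V) (v : V) : ℤ := 6 * loc t v - 4 * (if v ∈ Jn T t then 1 else 0)

variable {S : Set V} {T : Set (Set V)}

private def T4_L (ρ : Fin 4 → Fin 4) (x : Fin 4) : ℤ :=
  ((Finset.univ.filter fun j : Fin 4 => ρ j = x).card : ℤ) -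
    2 * (Finset.univ.filter fun j : Fin 4 => ρ j = x ∧ ρ (j + 1) = x).card +
    4 * (if ∀ j : Fin 4, ρ j = x then 1 else 0)

private def T4_K (ρ : Fin 4 → Fin 4) : ℕ := (Finset.univ.filter fun d : Fin 4 => ρ d ≠ ρ (d + 3)).card

private def T4_W (ρ : Fin 4 → Fin 4) (x : Fin 4) : ℤ :=
  6 * T4_L ρ x - 4 * (if 3 ≤ T4_K ρ ∧ ∃ j, ρ j = x then 1 else 0)

private theorem T4_fun (P : (Fin 4 → Fin 4) → Prop) (h : ∀ a b c d : Fin 4, P ![a, b, c, d]) : ∀ ρ, P ρ := by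
  intro ρ
  have h1 : ρ = ![ρ 0, ρ 1, ρ 2, ρ 3] := by
    funext j
    fin_cases j <;> rfl
  rw [h1]
  exact h _ _ _ _

private theorem T4_sum : ∀ a b c d : Fin 4, 0 ≤ ∑ x, T4_W ![a, b, c, d] x := by
  decide +kernel

private theorem T4_ge : ∀ a b c d x : Fin 4, -16 ≤ T4_W ![a, b, c, d] x := by
  decide +kernel

private theorem T4_zero (ρ : Fin 4 → Fin 4) (x : Fin 4) (h : ∀ j, ρ j ≠ x) : T4_W ρ x = 0 := by
  unfold T4_W T4_L
  have h1 : (Finset.univ.filter fun j : Fin 4 => ρ j = x) = ∅ := Finset.filter_eq_empty_iff.2 fun j _ => h j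
  have h2 : (Finset.univ.filter fun j : Fin 4 => ρ j = x ∧ ρ (j + 1) = x) = ∅ :=
    Finset.filter_eq_empty_iff.2 fun j _ hj => h j hj.1
  rw [h1, h2, if_neg (fun h3 => h 0 (h3 0)), if_neg (fun h3 => h3.2.elim fun j hj => h j hj)]
  simp

/-- the labels of the tiles at a point -/
private theorem T4_label (hT : Til S T) (v : V) : ∃ (τ : Fin 4 → Set V) (ι : Set V → Fin 4),
    (∀ j, τ j ∈ T) ∧ (∀ t ∈ T, ∀ j, v + co j ∈ t ↔ τ j = t) ∧ ∀ j, τ (ι (τ j)) = τ j := by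
  classical
  choose τ hτ hτ2 using fun j : Fin 4 => hT.uni (v + co j)
  refine ⟨τ, fun t => if t = τ 0 then 0 else if t = τ 1 then 1 else if t = τ 2 then 2 else 3, fun j => (hτ j).1, ?_, ?_⟩
  · intro t ht j
    constructor
    · intro h
      exact (hτ2 j t ⟨ht, h⟩).symm
    · rintro rfl
      exact (hτ j).2
  · intro j
    by_cases h0 : τ j = τ 0
    · simp only [h0, if_true]
    · by_cases h1 : τ j = τ 1
      · simp only [if_neg h0]
        rw [if_pos h1]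
        exact h1.symm
      · by_cases h2 : τ j = τ 2
        · simp only [if_neg h0, if_neg h1]
          rw [if_pos h2]
          exact h2.symm
        · simp only [if_neg h0, if_neg h1, if_neg h2]
          fin_cases j
          · exact absurd rfl h0
          · exact absurd rfl h1
          · exact absurd rfl h2
          · rfl

private theorem T4_wt (hT : Til S T) {v : V} {τ : Fin 4 → Set V} {ι : Set V → Fin 4} (h1 : ∀ j, τ j ∈ T)
    (h2 : ∀ t ∈ T, ∀ j, v + co j ∈ t ↔ τ j = t) (h3 : ∀ j, τ (ι (τ j)) = τ j) (i : Fin 4) :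
    wt T (τ i) v = T4_W (fun j => ι (τ j)) (ι (τ i)) := by
  classical
  have h4 : ∀ j k, τ j = τ k ↔ ι (τ j) = ι (τ k) := by
    intro j k
    constructor
    · intro h
      rw [h]
    · intro h
      rw [← h3 j, h, h3 k]
  have h5 : ∀ j, v + co j ∈ τ i ↔ ι (τ j) = ι (τ i) := fun j => (h2 _ (h1 i) j).trans (h4 j i)
  have hl : loc (τ i) v = T4_L (fun j => ι (τ j)) (ι (τ i)) := by
    unfold loc T4_L
    simp only [h5]
  have hk : kT T v = T4_K (fun j => ι (τ j)) := by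
    unfold kT T4_K
    congr 1
    refine Finset.filter_congr fun d _ => ?_
    show ¬ Same T (v + co d) (v + co (d + 3)) ↔ _
    rw [not_iff_not]
    constructor
    · rintro ⟨t, ht, hd, hd'⟩
      rw [h2 t ht] at hd hd'
      rw [← h4, hd, hd']
    · intro h
      rw [← h4] at h
      exact ⟨τ d, h1 d, (h2 _ (h1 d) d).2 rfl, (h2 _ (h1 d) (d + 3)).2 h.symm⟩
  have hj : v ∈ Jn T (τ i) ↔ (3 ≤ T4_K (fun j => ι (τ j)) ∧ ∃ j, ι (τ j) = ι (τ i)) := by
    show (3 ≤ kT T v ∧ ∃ j, v + co j ∈ τ i) ↔ _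
    rw [hk]
    simp only [h5]
  unfold wt T4_W
  rw [hl]
  congr 2
  by_cases h : v ∈ Jn T (τ i)
  · rw [if_pos h, if_pos (hj.1 h)]
  · rw [if_neg h, if_neg (fun h' => h (hj.2 h'))]

private theorem T4_off {v : V} {τ : Fin 4 → Set V} (h2 : ∀ t ∈ T, ∀ j, v + co j ∈ t ↔ τ j = t) {t : Set V} (ht : t ∈ T)
    (h : ∀ j, τ j ≠ t) : wt T t v = 0 := by
  classical
  have h5 : ∀ j, ¬ v + co j ∈ t := fun j hj => h j ((h2 t ht j).1 hj)
  unfold wt loc
  rw [if_neg (fun h6 : ∀ j : Fin 4, v + co j ∈ t => h5 0 (h6 0)), if_neg (fun h6 : v ∈ Jn T t => h6.2.elim fun j hj => h5 j hj)]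
  have h7 : (Finset.univ.filter fun j : Fin 4 => v + co j ∈ t) = ∅ := Finset.filter_eq_empty_iff.2 fun j _ => h5 j
  have h8 : (Finset.univ.filter fun j : Fin 4 => v + co j ∈ t ∧ v + co (j + 1) ∈ t) = ∅ :=
    Finset.filter_eq_empty_iff.2 fun j _ hj => h5 j hj.1
  rw [h7, h8]
  simp

theorem wt_sum_ge (hT : Til S T) (F : Finset (Set V)) (hF : ∀ t ∈ F, t ∈ T) (v : V) : -64 ≤ ∑ t ∈ F, wt T t v := by
  classical
  obtain ⟨τ, ι, h1, h2, h3⟩ := T4_label hT v
  have h4 : ∑ t ∈ F, wt T t v = ∑ t ∈ F.filter (fun t => ∃ j, τ j = t), wt T t v := by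
    rw [Finset.sum_filter]
    refine Finset.sum_congr rfl fun t ht => ?_
    by_cases h : ∃ j, τ j = t
    · rw [if_pos h]
    · rw [if_neg h]
      push Not at h
      exact T4_off h2 (hF t ht) h
  have h5 : (F.filter fun t => ∃ j, τ j = t).card ≤ 4 := by
    have h6 : (F.filter fun t => ∃ j, τ j = t) ⊆ Finset.univ.image τ := by
      intro t ht
      obtain ⟨j, hj⟩ := (Finset.mem_filter.1 ht).2
      exact Finset.mem_image.2 ⟨j, Finset.mem_univ _, hj⟩
    exact (Finset.card_le_card h6).trans (Finset.card_image_le.trans (by simp))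
  have h6 : ∑ t ∈ F.filter (fun t => ∃ j, τ j = t), (-16 : ℤ) ≤ ∑ t ∈ F.filter (fun t => ∃ j, τ j = t), wt T t v := by
    refine Finset.sum_le_sum fun t ht => ?_
    obtain ⟨j, rfl⟩ := (Finset.mem_filter.1 ht).2
    rw [T4_wt hT h1 h2 h3 j]
    exact T4_fun (fun ρ => ∀ x, -16 ≤ T4_W ρ x) T4_ge _ _
  rw [Finset.sum_const, nsmul_eq_mul] at h6
  rw [h4]
  have h7 : ((F.filter fun t => ∃ j, τ j = t).card : ℤ) ≤ 4 := by exact_mod_cast h5
  linarith

theorem wt_sum_nonneg (hT : Til S T) (F : Finset (Set V)) (hF : ∀ t ∈ F, t ∈ T) (v : V)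
    (hv : ∀ j, ∃ t ∈ F, v + co j ∈ t) : 0 ≤ ∑ t ∈ F, wt T t v := by
  classical
  obtain ⟨τ, ι, h1, h2, h3⟩ := T4_label hT v
  have hA : Finset.univ.image τ ⊆ F := by
    intro t ht
    obtain ⟨j, -, rfl⟩ := Finset.mem_image.1 ht
    obtain ⟨t, ht, htj⟩ := hv j
    rw [(h2 t (hF t ht) j).1 htj]
    exact ht
  rw [← Finset.sum_subset hA (fun t ht hn => T4_off h2 (hF t ht) fun j hj =>
    hn (Finset.mem_image.2 ⟨j, Finset.mem_univ _, hj⟩))]
  have h5 : ∑ t ∈ Finset.univ.image τ, wt T t v = ∑ x, T4_W (fun j => ι (τ j)) x := by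
    have h6 : ∑ t ∈ Finset.univ.image τ, wt T t v = ∑ x ∈ Finset.univ.image (fun j => ι (τ j)), T4_W (fun j => ι (τ j)) x := by
      refine Finset.sum_nbij ι ?_ ?_ ?_ ?_
      · intro t ht
        obtain ⟨j, -, rfl⟩ := Finset.mem_image.1 ht
        exact Finset.mem_image.2 ⟨j, Finset.mem_univ _, rfl⟩
      · intro t ht t' ht' htt
        obtain ⟨j, -, rfl⟩ := Finset.mem_image.1 (Finset.mem_coe.1 ht)
        obtain ⟨k, -, rfl⟩ := Finset.mem_image.1 (Finset.mem_coe.1 ht')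
        rw [← h3 j, htt, h3 k]
      · intro x hx
        obtain ⟨j, -, rfl⟩ := Finset.mem_image.1 (Finset.mem_coe.1 hx)
        exact ⟨τ j, Finset.mem_coe.2 (Finset.mem_image.2 ⟨j, Finset.mem_univ _, rfl⟩), rfl⟩
      · intro t ht
        obtain ⟨j, -, rfl⟩ := Finset.mem_image.1 ht
        exact T4_wt hT h1 h2 h3 j
    rw [h6]
    refine Finset.sum_subset (Finset.subset_univ _) fun x _ hx => T4_zero _ _ fun j hj => ?_
    exact hx (Finset.mem_image.2 ⟨j, Finset.mem_univ _, hj⟩)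
  rw [h5]
  exact T4_fun (fun ρ => 0 ≤ ∑ x, T4_W ρ x) T4_sum _

end Pool.Agent.PT
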