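import Pool.Agent.Lib.MP_ed987a_lc.PT.ADefs

/-!
# TASK PT A1: connectivity (easy)

`con_of_rch`, `rch_of_con`: `Relation.ReflTransGen` of the adjacency of `gridG.induce S` is `Reachable` (`SimpleGraph.reachable_iff_reflTransGen`), `gridG_adj`
(`SimpleGraph.comap_adj`, `SimpleGraph.Connected` = preconnected and nonempty). Induction on `ReflTransGen` (for `con_of_rch` show: if `Rch S p q` and `q ∈ S` then `p ∈ S` and the two elements
of the subtype are reachable; use `Relation.ReflTransGen.head_induction_on`).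
`Rch.symm`: `Relation.ReflTransGen.symmetric` with `Adj.symm`. `rch_vert`, `rch_hor`: induction on `(b - a).toNat` (first for `a ≤ b`, then `Rch.symm`); `Adj (x, y) (x, y + 1)` by `simp [Adj]`.
-/

set_option autoImplicit false

namespace Pool.Agent.PT

private theorem A1_adj_symm {p q : V} (h : Adj p q) : Adj q p := by
  unfold Adj at *
  rw [abs_sub_comm q.1 p.1, abs_sub_comm q.2 p.2]
  exact h

theorem Rch.symm {S : Set V} {p q : V} (h : Rch S p q) : Rch S q p := by
  unfold Rch at h ⊢
  induction h with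
  | refl => exact Relation.ReflTransGen.refl
  | tail _ h2 ih => exact Relation.ReflTransGen.head ⟨A1_adj_symm h2.1, h2.2.2, h2.2.1⟩ ih

theorem Rch.trans {S : Set V} {p q r : V} (h : Rch S p q) (h' : Rch S q r) : Rch S p r :=
  Relation.ReflTransGen.trans h h'

theorem Rch.mono {S S' : Set V} (hS : S ⊆ S') {p q : V} (h : Rch S p q) : Rch S' p q := by
  unfold Rch at h ⊢
  induction h with
  | refl => exact Relation.ReflTransGen.refl
  | tail _ h2 ih => exact Relation.ReflTransGen.tail ih ⟨h2.1, hS h2.2.1, hS h2.2.2⟩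

theorem rch_step {S : Set V} {p q : V} (h : Adj p q) (hp : p ∈ S) (hq : q ∈ S) : Rch S p q :=
  Relation.ReflTransGen.single ⟨h, hp, hq⟩

private theorem A1_grid {p q : V} : gridG.Adj p q ↔ Adj p q := by
  unfold gridG
  rw [SimpleGraph.fromRel_adj]
  constructor
  · rintro ⟨_, h | h⟩
    · exact h
    · exact A1_adj_symm h
  · intro h
    refine ⟨?_, Or.inl h⟩
    rintro rfl
    unfold Adj at h
    simp at h

theorem con_of_rch {S : Set V} {q : V} (hq : q ∈ S) (h : ∀ p ∈ S, Rch S p q) : (gridG.induce S).Connected := by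
  have key : ∀ p, Rch S p q → ∀ hp : p ∈ S, (gridG.induce S).Reachable ⟨p, hp⟩ ⟨q, hq⟩ := by
    intro p hpq
    unfold Rch at hpq
    induction hpq using Relation.ReflTransGen.head_induction_on with
    | refl => exact fun _ => SimpleGraph.Reachable.refl _
    | head h1 _ ih =>
      intro hp
      refine SimpleGraph.Reachable.trans (SimpleGraph.Adj.reachable ?_) (ih h1.2.2)
      rw [SimpleGraph.comap_adj]
      exact A1_grid.2 h1.1
  rw [SimpleGraph.connected_iff]
  refine ⟨fun a b => (key a.1 (h a.1 a.2) a.2).trans (key b.1 (h b.1 b.2) b.2).symm, ⟨⟨q, hq⟩⟩⟩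

theorem rch_of_con {S : Set V} (h : (gridG.induce S).Connected) {p q : V} (hp : p ∈ S) (hq : q ∈ S) : Rch S p q := by
  have h1 : (gridG.induce S).Reachable ⟨p, hp⟩ ⟨q, hq⟩ := h.preconnected _ _
  rw [SimpleGraph.reachable_iff_reflTransGen] at h1
  have h2 : ∀ a b : S, Relation.ReflTransGen (gridG.induce S).Adj a b → Rch S a.1 b.1 := by
    intro a b hab
    induction hab with
    | refl => exact Relation.ReflTransGen.refl
    | tail _ h3 ih =>
      refine ih.trans (rch_step ?_ (Subtype.prop _) (Subtype.prop _))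
      rw [SimpleGraph.comap_adj] at h3
      exact A1_grid.1 h3
  exact h2 _ _ h1

private theorem A1_vert {S : Set V} {x : ℤ} (n : ℕ) : ∀ a : ℤ, (∀ y, a ≤ y → y ≤ a + n → (x, y) ∈ S) →
    Rch S (x, a) (x, a + n) := by
  induction n with
  | zero =>
    intro a _
    rw [Nat.cast_zero, add_zero]
    exact Relation.ReflTransGen.refl
  | succ n ih =>
    intro a h
    refine (ih a fun y h1 h2 => h y h1 (by push_cast; omega)).trans (rch_step ?_ (h _ (by omega) (by push_cast; omega))
      (h _ (by push_cast; omega) le_rfl))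
    unfold Adj
    push_cast
    simp

private theorem A1_hor {S : Set V} {y : ℤ} (n : ℕ) : ∀ a : ℤ, (∀ x, a ≤ x → x ≤ a + n → (x, y) ∈ S) →
    Rch S (a, y) (a + n, y) := by
  induction n with
  | zero =>
    intro a _
    rw [Nat.cast_zero, add_zero]
    exact Relation.ReflTransGen.refl
  | succ n ih =>
    intro a h
    refine (ih a fun x h1 h2 => h x h1 (by push_cast; omega)).trans (rch_step ?_ (h _ (by omega) (by push_cast; omega))
      (h _ (by push_cast; omega) le_rfl))
    unfold Adj
    push_cast
    simp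

theorem rch_vert {S : Set V} {x a b : ℤ} (h : ∀ y, min a b ≤ y → y ≤ max a b → (x, y) ∈ S) : Rch S (x, a) (x, b) := by
  rcases le_total a b with hab | hab
  · obtain ⟨n, hn⟩ := Int.eq_ofNat_of_zero_le (show 0 ≤ b - a by omega)
    have hb : b = a + n := by omega
    rw [hb]
    exact A1_vert n a fun y h1 h2 => h y (by omega) (by omega)
  · obtain ⟨n, hn⟩ := Int.eq_ofNat_of_zero_le (show 0 ≤ a - b by omega)
    have hb : a = b + n := by omega
    rw [hb]
    exact (A1_vert n b fun y h1 h2 => h y (by omega) (by omega)).symm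

theorem rch_hor {S : Set V} {y a b : ℤ} (h : ∀ x, min a b ≤ x → x ≤ max a b → (x, y) ∈ S) : Rch S (a, y) (b, y) := by
  rcases le_total a b with hab | hab
  · obtain ⟨n, hn⟩ := Int.eq_ofNat_of_zero_le (show 0 ≤ b - a by omega)
    have hb : b = a + n := by omega
    rw [hb]
    exact A1_hor n a fun x h1 h2 => h x (by omega) (by omega)
  · obtain ⟨n, hn⟩ := Int.eq_ofNat_of_zero_le (show 0 ≤ a - b by omega)
    have hb : a = b + n := by omega
    rw [hb]
    exact (A1_hor n b fun x h1 h2 => h x (by omega) (by omega)).symm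

end Pool.Agent.PT
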