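import Pool.Agent.Lib.MP_ed987a_lc.PT.ADefs

/-!
# TASK PT A5: the recursion for the number of codes (medium)

`TT_fin`: all entries of a correct code of area `n` are at most `n` (`c.1 ≤ n`; `c.2 < c.1 + c'.1 ≤ n`, or `c.2 = 0`) and its length is at most `n` (all heights are `≥ 1`). So the codes are lists of length `≤ n` over the finite set
`(range (n+1))²` (`List.finite_length_le`-type lemma on the finite type `Fin (n + 1) × Fin (n + 1)`, map; or: induction on `n`, as a code is `[(n, 0)]` or `c :: l'` with `l'` a code of smaller area and `c` from a finite set).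
`TT_self`: the code `[(n, 0)]`.

PROOF of `TT_rec`. For `h' ∈ [1, n - h]`, a code `l'` of area `n - h` with first height `h'` and `o < h + h' - 1` the list `(h, o) :: l'` is a correct code of area `n` with first height `h`
(`l'` is nonempty). All these codes are different. So the disjoint union over `h'` of the products has at most `TT n h` elements.

`AA_rec`: for `1 ≤ h ≤ n - 1`: `TT n h ≥ ∑_{h'} (h + h' - 1) * TT (n - h) h' = (h - 1) * AA (n - h) + SS (n - h)`; sum over `h ∈ Icc 1 (n - 1) ⊆ Icc 1 n`. `SS_rec`: the same with the factor `h`.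
`AA_pos`, `SS_pos`: the term `h = n`.
-/

set_option autoImplicit false

namespace Pool.Agent.PT

/-- All entries of a correct code are at most the area, and so is its length. -/
theorem A5_bound (l : List (ℕ × ℕ)) (h : CCok l) :
    (∀ c ∈ l, c.1 ≤ area l ∧ c.2 ≤ area l) ∧ l.length ≤ area l := by
  induction l with
  | nil => exact absurd h (by simp [CCok])
  | cons c t ih =>
    cases t with
    | nil =>
      obtain ⟨h1, h2⟩ : 1 ≤ c.1 ∧ c.2 = 0 := h
      have ha : area [c] = c.1 := by simp [area]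
      rw [ha]
      refine ⟨?_, ?_⟩
      · intro d hd
        rw [List.mem_singleton] at hd
        subst hd
        exact ⟨le_rfl, by rw [h2]; exact Nat.zero_le _⟩
      · simpa using h1
    | cons c' t =>
      obtain ⟨h1, h2, h3⟩ : 1 ≤ c.1 ∧ c.2 + 1 < c.1 + c'.1 ∧ CCok (c' :: t) := h
      obtain ⟨i1, i2⟩ := ih h3
      have ha : area (c :: c' :: t) = c.1 + area (c' :: t) := by simp [area]
      rw [ha]
      refine ⟨?_, ?_⟩
      · intro d hd
        rw [List.mem_cons] at hd
        rcases hd with rfl | hd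
        · have h4 := (i1 c' (List.mem_cons_self)).1
          exact ⟨Nat.le_add_right _ _, by omega⟩
        · have h4 := i1 d hd
          exact ⟨h4.1.trans (Nat.le_add_left _ _), h4.2.trans (Nat.le_add_left _ _)⟩
      · rw [List.length_cons]
        omega

theorem TT_fin (n : ℕ) : {l : List (ℕ × ℕ) | CCok l ∧ area l = n}.Finite := by
  have h1 : {l : List (Fin (n + 1) × Fin (n + 1)) | l.length ≤ n}.Finite :=
    List.finite_length_le _ n
  refine (h1.image (List.map fun c => ((c.1 : ℕ), (c.2 : ℕ)))).subset ?_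
  rintro l ⟨hl, rfl⟩
  obtain ⟨h2, h3⟩ := A5_bound l hl
  refine ⟨l.map fun c => (Fin.ofNat (area l + 1) c.1, Fin.ofNat (area l + 1) c.2), ?_, ?_⟩
  · rw [Set.mem_ofPred_eq, List.length_map]
    exact h3
  · rw [List.map_map]
    conv_rhs => rw [← List.map_id l]
    refine List.map_congr_left fun c hc => ?_
    have h4 := h2 c hc
    have e1 : c.1 % (area l + 1) = c.1 := Nat.mod_eq_of_lt (by omega)
    have e2 : c.2 % (area l + 1) = c.2 := Nat.mod_eq_of_lt (by omega)
    simp [Fin.ofNat, e1, e2]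

theorem A5_fin (n h : ℕ) : {l : List (ℕ × ℕ) | CCok l ∧ area l = n ∧ hd l = h}.Finite :=
  (TT_fin n).subset fun _ hl => ⟨hl.1, hl.2.1⟩

/-- The finite set of the codes with area `n` and first height `h`. -/
noncomputable def A5_F (n h : ℕ) : Finset (List (ℕ × ℕ)) := (A5_fin n h).toFinset

theorem A5_mem (n h : ℕ) (l : List (ℕ × ℕ)) :
    l ∈ A5_F n h ↔ CCok l ∧ area l = n ∧ hd l = h := by
  rw [A5_F, Set.Finite.mem_toFinset]
  exact Iff.rfl

theorem A5_card (n h : ℕ) : (A5_F n h).card = TT n h := by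
  rw [TT, Set.ncard_eq_toFinset_card _ (A5_fin n h)]
  rfl

theorem TT_self {n : ℕ} (hn : 1 ≤ n) : 1 ≤ TT n n := by
  rw [← A5_card, Nat.one_le_iff_ne_zero, ← Nat.pos_iff_ne_zero, Finset.card_pos]
  refine ⟨[(n, 0)], ?_⟩
  rw [A5_mem]
  exact ⟨⟨hn, rfl⟩, by simp [area], rfl⟩

theorem TT_rec {n h : ℕ} (h1 : 1 ≤ h) (h2 : h < n) :
    ∑ h' ∈ Finset.Icc 1 (n - h), (h + h' - 1) * TT (n - h) h' ≤ TT n h := by
  have e : ∑ h' ∈ Finset.Icc 1 (n - h), (h + h' - 1) * TT (n - h) h' =
      ((Finset.Icc 1 (n - h)).sigma fun h' =>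
        (Finset.range (h + h' - 1)) ×ˢ (A5_F (n - h) h')).card := by
    rw [Finset.card_sigma]
    refine Finset.sum_congr rfl fun h' _ => ?_
    rw [Finset.card_product, Finset.card_range, A5_card]
  rw [e, ← A5_card n h]
  refine Finset.card_le_card_of_injOn (fun x => (h, x.2.1) :: x.2.2) ?_ ?_
  · rintro ⟨h', o, l'⟩ hx
    rw [Finset.mem_coe, Finset.mem_sigma, Finset.mem_product, Finset.mem_range, A5_mem] at hx
    obtain ⟨hh, ho, hl, ha, hh'⟩ := hx
    rw [Finset.mem_coe, A5_mem]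
    cases l' with
    | nil => exact absurd hl (by simp [CCok])
    | cons c' t =>
      have h3 : c'.1 = h' := hh'
      have ho' : o < h + h' - 1 := ho
      refine ⟨⟨h1, ?_, hl⟩, ?_, rfl⟩
      · change o + 1 < h + c'.1
        omega
      · have h4 : area ((h, o) :: c' :: t) = h + area (c' :: t) := by simp [area]
        change area ((h, o) :: c' :: t) = n
        have ha' : area (c' :: t) = n - h := ha
        rw [h4, ha']
        omega
  · rintro ⟨h', o, l'⟩ hx ⟨h'', o', l''⟩ hy hxy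
    rw [Finset.mem_coe, Finset.mem_sigma, Finset.mem_product, A5_mem] at hx hy
    have h3 : (h, o) :: l' = (h, o') :: l'' := hxy
    rw [List.cons.injEq, Prod.mk.injEq] at h3
    obtain ⟨⟨-, rfl⟩, rfl⟩ := h3
    have h4 : hd l' = h' := hx.2.2.2.2
    have h5 : hd l' = h'' := hy.2.2.2.2
    have h6 : h' = h'' := h4.symm.trans h5
    subst h6
    rfl

theorem A5_term {n h : ℕ} (h1 : 1 ≤ h) (h2 : h < n) :
    (h - 1) * AA (n - h) + SS (n - h) ≤ TT n h := by
  refine le_trans (le_of_eq ?_) (TT_rec h1 h2)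
  rw [AA, SS, Finset.mul_sum, ← Finset.sum_add_distrib]
  refine Finset.sum_congr rfl fun h' _ => ?_
  rw [← add_mul]
  congr 1
  omega

theorem AA_rec (n : ℕ) : ∑ h ∈ Finset.Icc 1 (n - 1), ((h - 1) * AA (n - h) + SS (n - h)) ≤ AA n := by
  rw [AA]
  calc ∑ h ∈ Finset.Icc 1 (n - 1), ((h - 1) * AA (n - h) + SS (n - h))
      ≤ ∑ h ∈ Finset.Icc 1 (n - 1), TT n h := by
        refine Finset.sum_le_sum fun h hh => ?_
        rw [Finset.mem_Icc] at hh
        exact A5_term hh.1 (by omega)
    _ ≤ ∑ h ∈ Finset.Icc 1 n, TT n h := by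
        refine Finset.sum_le_sum_of_subset ?_
        exact Finset.Icc_subset_Icc le_rfl (Nat.sub_le _ _)

theorem SS_rec (n : ℕ) : ∑ h ∈ Finset.Icc 1 (n - 1), h * ((h - 1) * AA (n - h) + SS (n - h)) ≤ SS n := by
  rw [SS]
  calc ∑ h ∈ Finset.Icc 1 (n - 1), h * ((h - 1) * AA (n - h) + SS (n - h))
      ≤ ∑ h ∈ Finset.Icc 1 (n - 1), h * TT n h := by
        refine Finset.sum_le_sum fun h hh => ?_
        rw [Finset.mem_Icc] at hh
        exact Nat.mul_le_mul le_rfl (A5_term hh.1 (by omega))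
    _ ≤ ∑ h ∈ Finset.Icc 1 n, h * TT n h := by
        refine Finset.sum_le_sum_of_subset ?_
        exact Finset.Icc_subset_Icc le_rfl (Nat.sub_le _ _)

theorem AA_pos {n : ℕ} (hn : 1 ≤ n) : 1 ≤ AA n := by
  rw [AA]
  refine (TT_self hn).trans ?_
  exact Finset.single_le_sum (f := fun h => TT n h) (fun _ _ => Nat.zero_le _)
    (Finset.mem_Icc.2 ⟨hn, le_rfl⟩)

theorem SS_pos {n : ℕ} (hn : 1 ≤ n) : 1 ≤ SS n := by
  rw [SS]
  have h1 : 1 ≤ n * TT n n := Nat.mul_pos hn (TT_self hn)
  refine h1.trans ?_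
  exact Finset.single_le_sum (f := fun h => h * TT n h) (fun _ _ => Nat.zero_le _)
    (Finset.mem_Icc.2 ⟨hn, le_rfl⟩)

/-- the number of all codes of area `n` -/
theorem AA_le (n : ℕ) : AA n ≤ {l : List (ℕ × ℕ) | CCok l ∧ area l = n}.ncard := by
  have e : AA n = ((Finset.Icc 1 n).sigma fun h => A5_F n h).card := by
    rw [Finset.card_sigma, AA]
    exact Finset.sum_congr rfl fun h _ => (A5_card n h).symm
  rw [e, Set.ncard_eq_toFinset_card _ (TT_fin n)]
  refine Finset.card_le_card_of_injOn (fun x => x.2) ?_ ?_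
  · rintro ⟨h, l⟩ hx
    rw [Finset.mem_coe, Finset.mem_sigma, A5_mem] at hx
    rw [Finset.mem_coe, Set.Finite.mem_toFinset]
    exact ⟨hx.2.1, hx.2.2.1⟩
  · rintro ⟨h, l⟩ hx ⟨h', l'⟩ hy hxy
    rw [Finset.mem_coe, Finset.mem_sigma, A5_mem] at hx hy
    have h3 : l = l' := hxy
    subst h3
    have h4 : hd l = h := hx.2.2.2
    have h5 : hd l = h' := hy.2.2.2
    have h6 : h = h' := h4.symm.trans h5
    subst h6
    rfl

end Pool.Agent.PT
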