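import Pool.Agent.Lib.MP_ed987a_lc.PT.Bas

/-!
# Definitions for the block A (area: column-convex polyominoes, perimeter)

A column-convex polyomino is coded by the list of its columns from left to right: the pair `(h, o)` is the height of
the column and the code `o` of the position of the next column (`0` for the last column): the next column starts at the
height `b + h - 1 - o`, where `b` is the lowest height of this column. `Rch S p q`: the cells `p`, `q` are connected in `S`.
-/

set_option autoImplicit false

namespace Pool.Agent.PT

/-- `q` can be reached from `p` in `S` -/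
def Rch (S : Set V) (p q : V) : Prop := Relation.ReflTransGen (fun a b : V => Adj a b ∧ a ∈ S ∧ b ∈ S) p q

/-- correct codes of column-convex polyominoes -/
def CCok : List (ℕ × ℕ) → Prop
  | [] => False
  | [c] => 1 ≤ c.1 ∧ c.2 = 0
  | c :: c' :: l => 1 ≤ c.1 ∧ c.2 + 1 < c.1 + c'.1 ∧ CCok (c' :: l)

/-- the number of cells -/
def area (l : List (ℕ × ℕ)) : ℕ := (l.map Prod.fst).sum

/-- the column at `x` from the height `b`, with `h` cells -/
def col (x b : ℤ) (h : ℕ) : Set V := {p | p.1 = x ∧ b ≤ p.2 ∧ p.2 < b + h}

/-- the column-convex polyomino with the code `l`, its first column is at `x` and starts at the height `b` -/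
def colset : ℤ → ℤ → List (ℕ × ℕ) → Set V
  | _, _, [] => ∅
  | x, b, c :: l => col x b c.1 ∪ colset (x + 1) (b + c.1 - 1 - c.2) l

/-- the height of the first column -/
def hd (l : List (ℕ × ℕ)) : ℕ := (l.headD (0, 0)).1

/-- the number of codes with area `n` whose first column has height `h` -/
noncomputable def TT (n h : ℕ) : ℕ := {l : List (ℕ × ℕ) | CCok l ∧ area l = n ∧ hd l = h}.ncard

/-- the number of codes with area `n` -/
noncomputable def AA (n : ℕ) : ℕ := ∑ h ∈ Finset.Icc 1 n, TT n h

/-- the sum of the heights of the first columns over the codes with area `n` -/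
noncomputable def SS (n : ℕ) : ℕ := ∑ h ∈ Finset.Icc 1 n, h * TT n h

end Pool.Agent.PT
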