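import Pool.Agent.Lib.MP_ed987a_lc.PT.Defs

/-!
# Basic identities (proved)
-/

set_option autoImplicit false

namespace Pool.Agent.PT

theorem vec_co_left (d : Fin 4) : vec d + co (d + 1) = co d := by revert d; decide

theorem vec_co_right (d : Fin 4) : vec d + co (d + 2) = co (d + 3) := by revert d; decide

theorem vec_back (d : Fin 4) : vec d + vec (d + 2) = 0 := by revert d; decide

theorem vec_ne_zero (d : Fin 4) : vec d ≠ 0 := by revert d; decide

theorem vec_inj {d e : Fin 4} : vec d = vec e → d = e := by revert d e; decide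

theorem co_inj {d e : Fin 4} : co d = co e → d = e := by revert d e; decide

/-- the difference of the two sides of an edge determines its direction -/
theorem side_inj {d e : Fin 4} : co d - co (d + 3) = co e - co (e + 3) → d = e := by revert d e; decide

theorem d22 (d : Fin 4) : d + 2 + 2 = d := by revert d; decide

theorem d23 (d : Fin 4) : d + 2 + 3 = d + 1 := by revert d; decide

theorem d13 (d : Fin 4) : d + 1 + 3 = d := by revert d; decide

/-- an edge seen from its other end -/
theorem BE_rev (S : Set V) (p : V) (d : Fin 4) : BE S (p + vec d) (d + 2) ↔ BE S p d := by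
  unfold BE
  rw [d23, add_assoc, add_assoc, vec_co_right, vec_co_left]
  constructor
  · intro h h'
    exact h h'.symm
  · intro h h'
    exact h h'.symm

theorem adj_iff (p q : V) : Adj p q ↔ ∃ d, q = p + vec d := by
  unfold Adj
  constructor
  · intro h
    obtain ⟨x, y⟩ := p
    obtain ⟨x', y'⟩ := q
    simp only at h
    have h1 : (x' = x + 1 ∧ y' = y) ∨ (x' = x ∧ y' = y + 1) ∨ (x' = x - 1 ∧ y' = y) ∨ (x' = x ∧ y' = y - 1) := by
      rcases abs_cases (x - x') with ⟨h2, h3⟩ | ⟨h2, h3⟩ <;> rcases abs_cases (y - y') with ⟨h4, h5⟩ | ⟨h4, h5⟩ <;>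
        rw [h2, h4] at h <;> omega
    rcases h1 with ⟨rfl, rfl⟩ | ⟨rfl, rfl⟩ | ⟨rfl, rfl⟩ | ⟨rfl, rfl⟩
    · exact ⟨0, by simp [vec]⟩
    · exact ⟨1, by simp [vec]⟩
    · exact ⟨2, by simp [vec, sub_eq_add_neg]⟩
    · exact ⟨3, by simp [vec, sub_eq_add_neg]⟩
  · rintro ⟨d, rfl⟩
    fin_cases d <;> simp [vec]

/-- adjacent cells are the two sides of an edge -/
theorem adj_edge (c c' : V) : Adj c c' ↔ ∃ p d, c = p + co d ∧ c' = p + co (d + 3) := by
  rw [adj_iff]
  constructor
  · rintro ⟨e, rfl⟩
    refine ⟨c - co (e + 1), e + 1, by abel, ?_⟩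
    rw [d13]
    have h : ∀ e : Fin 4, co e = co (e + 1) + vec e := by decide
    rw [h e]
    abel
  · rintro ⟨p, d, rfl, rfl⟩
    refine ⟨d + 3, ?_⟩
    have h : ∀ d : Fin 4, co (d + 3) = co d + vec (d + 3) := by decide
    conv_lhs => rw [h d]
    abel

theorem gridG_adj (p q : V) : gridG.Adj p q ↔ Adj p q := by
  unfold gridG Adj
  rw [SimpleGraph.fromRel_adj]
  constructor
  · rintro ⟨_, h | h⟩
    · exact h
    · rw [abs_sub_comm, abs_sub_comm p.2]
      exact h
  · intro h
    refine ⟨?_, Or.inl h⟩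
    rintro rfl
    simp at h

theorem Adj.symm {p q : V} (h : Adj p q) : Adj q p := by
  unfold Adj at *
  rw [abs_sub_comm, abs_sub_comm q.2]
  exact h

end Pool.Agent.PT
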