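import Pool.Agent.Lib.MP_ed987a_lc.PT.Defs

/-!
# TASK D1: the positions of a piece which are not determined by smaller (greater) positions

`l` a label, `a ≤ e`, `l.ok L i` for `a ≤ i < e`, and if `l.1 = true`, `l.2.1 = L` then `e ≤ a + 1`.
`l.1 = true`: `pos i - i = α - L` is constant. If `α < L`: `u = a`, `v = a` (`pos i < i` for all `i`; `pos i ≤ i` for all). If `α > L`: `u = e`, `v = e`. If `α = L`: `u = e`, `v = a` (length `≤ 1`).
`l.1 = false`: `i ≤ α - i ↔ 2 i ≤ α ↔ i < α / 2 + 1`, `α - i ≤ i ↔ α ≤ 2 i ↔ (α + 1) / 2 ≤ i`. `u = max a (min e (α / 2 + 1))`, `v = max a (min e ((α + 1) / 2))`;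
`(u - a) + (e - v) ≤ e - a + 1` since `u ≤ v + 1`.
-/

set_option autoImplicit false

namespace Pool.Agent.PT

theorem piece_split (l : Lab) (L a e : ℕ) (hae : a ≤ e) (hok : ∀ i, a ≤ i → i < e → l.ok L i)
    (hid : l.1 = true → l.2.1 = L → e ≤ a + 1) :
    ∃ u v, a ≤ u ∧ u ≤ e ∧ a ≤ v ∧ v ≤ e ∧ (u - a) + (e - v) ≤ (e - a) + 1 ∧
      (∀ i, u ≤ i → i < e → l.pos L i < i) ∧ (∀ i, a ≤ i → i < v → i < l.pos L i ∧ l.pos L i < L) := by
  obtain ⟨ε, α, ρ, r⟩ := l
  simp only [Lab.ok, Lab.pos] at *
  cases ε with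
  | true =>
    simp only [if_true] at *
    rcases lt_trichotomy α L with h | h | h
    · refine ⟨a, a, le_rfl, hae, le_rfl, hae, by omega, ?_, ?_⟩
      · intro i hi hie
        have := hok i hi hie
        omega
      · intro i hi hie
        omega
    · refine ⟨e, a, hae, le_rfl, le_rfl, hae, ?_, ?_, ?_⟩
      · have := hid trivial h
        omega
      · intro i hi hie
        omega
      · intro i hi hie
        omega
    · refine ⟨e, e, hae, le_rfl, hae, le_rfl, by omega, ?_, ?_⟩
      · intro i hi hie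
        omega
      · intro i hi hie
        have := hok i hi hie
        omega
  | false =>
    simp only [Bool.false_eq_true, if_false] at *
    refine ⟨max a (min e (α / 2 + 1)), max a (min e ((α + 1) / 2)), by omega, by omega, by omega, by omega, by omega, ?_, ?_⟩
    · intro i hi hie
      have := hok i (by omega) hie
      omega
    · intro i hi hie
      have := hok i hi (by omega)
      omega

end Pool.Agent.PT
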