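import Pool.Agent.Lib.MP_ed987a_lc.PT.D1

/-!
# TASK D2: systems

A system `σ` for words of length `L`: a bit (`true`: upwards, `false`: downwards), the 15 cut points, the 14 labels, 14 intervals `[u k, v k)`. `Sol σ w`: the word `w` obeys the
laws of `σ` outside of the intervals, the sum of the lengths of the intervals is at most `(L + 14) / 2`.
(`exists_sol`) from `Six w`: `c`, labels `l k`, and `piece_split` for every piece gives `u k`, `v k` with `∑ k, ((u k - c k) + (c (k + 1) - v k)) ≤ L + 14` (telescoping: `∑ (c (k + 1) - c k) = L`), so one of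
the two sums is at most `(L + 14) / 2`. If the first one: bit `true`, intervals `[c k, u k)`; otherwise bit `false`, intervals `[v k, c (k + 1))`. All numbers are `≤ L` (`≤ 2 L` for `α`).
(`sol_unique`) bit `true`: strong induction on `i < L`: `i` is in a piece `k` (`cover`); if it is in some interval, the letters agree because the factors agree; otherwise by the law of
the piece `k` the letters are images of the letters at `pos i < i`. Bit `false`: the same downwards.
(`card_sys`) `Fintype.card`: `2 * (L + 1) ^ 15 * (16 * (2 L + 1)) ^ 14 * ((L + 1) ^ 2) ^ 14`.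
-/

set_option autoImplicit false

namespace Pool.Agent.PT

/-- bit, cut points, labels, intervals -/
abbrev Sys (L : ℕ) : Type :=
  Bool × (Fin 15 → Fin (L + 1)) × (Fin 14 → Bool × Fin (2 * L + 1) × Bool × Fin 4) × (Fin 14 → Fin (L + 1) × Fin (L + 1))

variable {L : ℕ}

/-- the cut points -/
def Sys.c (σ : Sys L) (k : Fin 15) : ℕ := σ.2.1 k

/-- the labels -/
def Sys.lab (σ : Sys L) (k : Fin 14) : Lab := ((σ.2.2.1 k).1, ((σ.2.2.1 k).2.1 : ℕ), (σ.2.2.1 k).2.2.1, (σ.2.2.1 k).2.2.2)

/-- the start of the interval `k` -/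
def Sys.u (σ : Sys L) (k : Fin 14) : ℕ := (σ.2.2.2 k).1

/-- the end of the interval `k` -/
def Sys.v (σ : Sys L) (k : Fin 14) : ℕ := (σ.2.2.2 k).2

/-- `w` obeys the laws of the system `σ` -/
structure Sol (σ : Sys L) (w : List (Fin 4)) : Prop where
  len : w.length = L
  sum : ∑ k, (σ.v k - σ.u k) ≤ (L + 14) / 2
  cover : ∀ i < L, ∃ k : Fin 14, σ.c k.castSucc ≤ i ∧ i < σ.c k.succ
  law : ∀ (k : Fin 14) (i : ℕ), σ.c k.castSucc ≤ i → i < σ.c k.succ → (∃ k', σ.u k' ≤ i ∧ i < σ.v k') ∨
    (w.getD i 0 = (σ.lab k).dir (w.getD ((σ.lab k).pos L i) 0) ∧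
      if σ.1 then (σ.lab k).pos L i < i else i < (σ.lab k).pos L i ∧ (σ.lab k).pos L i < L)

private theorem D2_mono {c : ℕ → ℕ} {n : ℕ} (h : ∀ k < n, c k ≤ c (k + 1)) :
    ∀ m, m ≤ n → ∀ k ≤ m, c k ≤ c m := by
  intro m
  induction m with
  | zero =>
    intro _ k hk
    rw [Nat.le_zero.1 hk]
  | succ m ih =>
    intro hm k hk
    rcases Nat.lt_or_ge k (m + 1) with h1 | h1
    · exact (ih (by omega) k (by omega)).trans (h m (by omega))
    · rw [le_antisymm hk h1]

private theorem D2_tele {c : ℕ → ℕ} (h0 : c 0 = 0) : ∀ n, (∀ k < n, c k ≤ c (k + 1)) →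
    ∑ k ∈ Finset.range n, (c (k + 1) - c k) = c n := by
  intro n
  induction n with
  | zero => intro _; simp [h0]
  | succ n ih =>
    intro h
    rw [Finset.sum_range_succ, ih fun k hk => h k (by omega)]
    have := h n (by omega)
    omega

theorem exists_sol {w : List (Fin 4)} (hw : w.length = L) (h : Six w) : ∃ σ : Sys L, Sol σ w := by
  obtain ⟨c, hc0, hc14, hc⟩ := h
  have hmono := D2_mono (c := c) (n := 14) (fun k hk => (hc k hk).1)
  have hcL : ∀ k ≤ 14, c k ≤ L := by
    intro k hk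
    have := hmono 14 le_rfl k hk
    omega
  have hp : ∀ k : Fin 14, Piece w (c k) (c (k + 1)) := fun k => (hc k k.2).2
  choose l hl hlaw hid using hp
  have hs : ∀ k : Fin 14, ∃ u v, c k ≤ u ∧ u ≤ c (k + 1) ∧ c k ≤ v ∧ v ≤ c (k + 1) ∧
      (u - c k) + (c (k + 1) - v) ≤ (c (k + 1) - c k) + 1 ∧
      (∀ i, u ≤ i → i < c (k + 1) → (l k).pos L i < i) ∧
      (∀ i, c k ≤ i → i < v → i < (l k).pos L i ∧ (l k).pos L i < L) := by
    intro k
    refine piece_split (l k) L (c k) (c (k + 1)) (hc k k.2).1 (fun i h1 h2 => ?_) (fun h1 h2 => ?_)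
    · have := (hlaw k i h1 h2).1
      rwa [hw] at this
    · exact hid k h1 (by rw [hw]; exact h2)
  choose u v hu1 hu2 hv1 hv2 hsum hup hdown using hs
  have htot : ∑ k : Fin 14, ((u k - c k) + (c (k + 1) - v k)) ≤ L + 14 := by
    calc ∑ k : Fin 14, ((u k - c k) + (c (k + 1) - v k))
        ≤ ∑ k : Fin 14, ((c (k + 1) - c k) + 1) := Finset.sum_le_sum fun k _ => hsum k
      _ = (∑ k : Fin 14, (c (k + 1) - c k)) + 14 := by
          rw [Finset.sum_add_distrib]
          simp
      _ = L + 14 := by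
          rw [Fin.sum_univ_eq_sum_range (fun k => c (k + 1) - c k) 14,
            D2_tele hc0 14 (fun k hk => (hc k hk).1), hc14, hw]
  rw [Finset.sum_add_distrib] at htot
  have hcover : ∀ i < L, ∃ k : Fin 14, c k ≤ i ∧ i < c (k + 1) := by
    intro i hi
    have hex : ∃ k, i < c (k + 1) := ⟨13, by rw [show 13 + 1 = 14 from rfl, hc14, hw]; exact hi⟩
    classical
    have h1 := Nat.find_spec hex
    have h2 : Nat.find hex ≤ 13 := Nat.find_min' hex (by rw [show 13 + 1 = 14 from rfl, hc14, hw]; exact hi)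
    refine ⟨⟨Nat.find hex, by omega⟩, ?_, h1⟩
    show c (Nat.find hex) ≤ i
    rcases Nat.eq_zero_or_pos (Nat.find hex) with h3 | h3
    · rw [h3, hc0]; exact Nat.zero_le _
    · have h4 := Nat.find_min hex (m := Nat.find hex - 1) (by omega)
      rw [show Nat.find hex - 1 + 1 = Nat.find hex by omega] at h4
      omega
  have hcs : ∀ k : Fin 14, ((k.castSucc : Fin 15) : ℕ) = k := fun k => rfl
  have hcs' : ∀ k : Fin 14, ((k.succ : Fin 15) : ℕ) = k + 1 := fun k => by simp
  have hlt : ∀ k : Fin 15, c k < L + 1 := fun k => Nat.lt_succ_of_le (hcL k (by omega))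
  have hllt : ∀ k : Fin 14, (l k).2.1 < 2 * L + 1 := fun k => by
    have := hl k
    rw [hw] at this
    omega
  have huL : ∀ k : Fin 14, u k < L + 1 := fun k => by
    have := hu2 k
    have := hcL (k + 1) (by omega)
    omega
  have hvL : ∀ k : Fin 14, v k < L + 1 := fun k => by
    have := hv2 k
    have := hcL (k + 1) (by omega)
    omega
  have hck : ∀ k : Fin 14, c k < L + 1 := fun k => Nat.lt_succ_of_le (hcL k (by omega))
  have hck' : ∀ k : Fin 14, c (k + 1) < L + 1 := fun k => Nat.lt_succ_of_le (hcL (k + 1) (by omega))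
  rcases Nat.lt_or_ge ((L + 14) / 2) (∑ k : Fin 14, (u k - c k)) with hcase | hcase
  · have hcase2 : ∑ k : Fin 14, (c (k + 1) - v k) ≤ (L + 14) / 2 := by omega
    let σ : Sys L := (false, fun k => ⟨c k, hlt k⟩,
      fun k => ((l k).1, ⟨(l k).2.1, hllt k⟩, (l k).2.2.1, (l k).2.2.2),
      fun k => (⟨v k, hvL k⟩, ⟨c (k + 1), hck' k⟩))
    refine ⟨σ, ⟨hw, hcase2, ?_, ?_⟩⟩
    · intro i hi
      obtain ⟨k, h1, h2⟩ := hcover i hi
      refine ⟨k, h1, ?_⟩
      show i < c ((k.succ : Fin 15) : ℕ)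
      rw [hcs']
      exact h2
    · intro k i h1 h2
      have h1' : c k ≤ i := h1
      have h2' : i < c (k + 1) := by
        have : i < c ((k.succ : Fin 15) : ℕ) := h2
        rwa [hcs'] at this
      have hlab : σ.lab k = l k := rfl
      rcases Nat.lt_or_ge i (v k) with h3 | h3
      · right
        have h4 := hlaw k i h1' h2'
        rw [hw] at h4
        rw [hlab]
        exact ⟨h4.2, hdown k i h1' h3⟩
      · left
        exact ⟨k, h3, h2'⟩
  · let σ : Sys L := (true, fun k => ⟨c k, hlt k⟩,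
      fun k => ((l k).1, ⟨(l k).2.1, hllt k⟩, (l k).2.2.1, (l k).2.2.2),
      fun k => (⟨c k, hck k⟩, ⟨u k, huL k⟩))
    refine ⟨σ, ⟨hw, hcase, ?_, ?_⟩⟩
    · intro i hi
      obtain ⟨k, h1, h2⟩ := hcover i hi
      refine ⟨k, h1, ?_⟩
      show i < c ((k.succ : Fin 15) : ℕ)
      rw [hcs']
      exact h2
    · intro k i h1 h2
      have h1' : c k ≤ i := h1
      have h2' : i < c (k + 1) := by
        have : i < c ((k.succ : Fin 15) : ℕ) := h2
        rwa [hcs'] at this
      have hlab : σ.lab k = l k := rfl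
      rcases Nat.lt_or_ge i (u k) with h3 | h3
      · left
        exact ⟨k, h1', h3⟩
      · right
        have h4 := hlaw k i h1' h2'
        rw [hw] at h4
        rw [hlab]
        exact ⟨h4.2, hup k i h3 h2'⟩

private theorem D2_factor {w w' : List (Fin 4)} {u v i : ℕ}
    (hf : (w.drop u).take (v - u) = (w'.drop u).take (v - u)) (h1 : u ≤ i) (h2 : i < v) :
    w.getD i 0 = w'.getD i 0 := by
  have h3 : ((w.drop u).take (v - u))[i - u]? = ((w'.drop u).take (v - u))[i - u]? := by rw [hf]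
  rw [List.getElem?_take_of_lt (by omega), List.getElem?_take_of_lt (by omega), List.getElem?_drop,
    List.getElem?_drop, show u + (i - u) = i by omega] at h3
  rw [List.getD_eq_getElem?_getD, List.getD_eq_getElem?_getD, h3]

theorem sol_unique {σ : Sys L} {w w' : List (Fin 4)} (h : Sol σ w) (h' : Sol σ w')
    (hf : ∀ k : Fin 14, (w.drop (σ.u k)).take (σ.v k - σ.u k) = (w'.drop (σ.u k)).take (σ.v k - σ.u k)) : w = w' := by
  have key : ∀ i < L, w.getD i 0 = w'.getD i 0 := by
    rcases hb : σ.1 with _ | _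
    · have hind : ∀ n i, L - i ≤ n → i < L → w.getD i 0 = w'.getD i 0 := by
        intro n
        induction n with
        | zero => intro i h1 h2; omega
        | succ n ih =>
          intro i hn hi
          obtain ⟨k, h1, h2⟩ := h.cover i hi
          rcases h.law k i h1 h2 with ⟨k', h3, h4⟩ | ⟨h3, h4⟩
          · exact D2_factor (hf k') h3 h4
          · rcases h'.law k i h1 h2 with ⟨k', h5, h6⟩ | ⟨h5, _⟩
            · exact D2_factor (hf k') h5 h6
            · rw [if_neg (by rw [hb]; simp)] at h4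
              rw [h3, h5, ih _ (by omega) h4.2]
      exact fun i hi => hind (L - i) i le_rfl hi
    · have hind : ∀ n i, i ≤ n → i < L → w.getD i 0 = w'.getD i 0 := by
        intro n
        induction n with
        | zero =>
          intro i h0 hi
          obtain ⟨k, h1, h2⟩ := h.cover i hi
          rcases h.law k i h1 h2 with ⟨k', h3, h4⟩ | ⟨h3, h4⟩
          · exact D2_factor (hf k') h3 h4
          · rw [if_pos (by rw [hb])] at h4
            omega
        | succ n ih =>
          intro i hn hi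
          obtain ⟨k, h1, h2⟩ := h.cover i hi
          rcases h.law k i h1 h2 with ⟨k', h3, h4⟩ | ⟨h3, h4⟩
          · exact D2_factor (hf k') h3 h4
          · rcases h'.law k i h1 h2 with ⟨k', h5, h6⟩ | ⟨h5, _⟩
            · exact D2_factor (hf k') h5 h6
            · rw [if_pos (by rw [hb])] at h4
              rw [h3, h5, ih _ (by omega) (by omega)]
      exact fun i hi => hind i i le_rfl hi
  refine List.ext_getElem (h.len.trans h'.len.symm) fun i h1 h2 => ?_
  have h3 := key i (h.len ▸ h1)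
  rwa [List.getD_eq_getElem _ _ h1, List.getD_eq_getElem _ _ h2] at h3

theorem card_sys (L : ℕ) : Fintype.card (Sys L) ≤ 2 ^ 57 * (2 * L + 1) ^ 57 := by
  have e : Fintype.card (Sys L) = 2 * ((L + 1) ^ 15 * ((2 * ((2 * L + 1) * (2 * 4))) ^ 14 * ((L + 1) * (L + 1)) ^ 14)) := by
    simp only [Sys, Fintype.card_prod, Fintype.card_bool, Fintype.card_fun, Fintype.card_fin]
  rw [e]
  have h : L + 1 ≤ 2 * L + 1 := by omega
  calc 2 * ((L + 1) ^ 15 * ((2 * ((2 * L + 1) * (2 * 4))) ^ 14 * ((L + 1) * (L + 1)) ^ 14))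
      ≤ 2 * ((2 * L + 1) ^ 15 * ((2 * ((2 * L + 1) * (2 * 4))) ^ 14 * ((2 * L + 1) * (2 * L + 1)) ^ 14)) := by
        gcongr
    _ = 2 ^ 57 * (2 * L + 1) ^ 57 := by ring

end Pool.Agent.PT
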