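import Pool.Agent.Lib.MP_ed987a_lc.PT.D2

/-!
# TASK D3: the number of the words which are concatenations of 14 pieces

(`ncard_sol`) for a fixed system `σ` the map `w ↦ (k ↦ (w.drop (u k)).take (v k - u k))` is injective on the solutions (`sol_unique`); the values are self-avoiding
words of length at most `v k - u k`: `v k - u k ≤ (L + 14) / 2 < L` (`L ≥ 15`), so `Loc w` applies; the factor has length `min (v k - u k) (L - u k) = v k - u k` if `v k ≤ L`. (`v k ≤ L` because it is in `Fin (L + 1)`; if `v k < u k` the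
factor is empty.) So the number of solutions is at most `∏ k, cs (v k - u k) ≤ ∏ k, K * ρ ^ (v k - u k) = K ^ 14 * ρ ^ (∑ (v k - u k)) ≤ K ^ 14 * ρ ^ ((L + 14) / 2)`.
(`ncard_six_le`) the set is contained in the union over all systems `σ` (`exists_sol`, `card_sys`).
-/

set_option autoImplicit false

namespace Pool.Agent.PT

private theorem D3_fin (n : ℕ) (p : List (Fin 4) → Prop) : {w : List (Fin 4) | w.length = n ∧ p w}.Finite :=
  (List.finite_length_eq (Fin 4) n).subset fun _ h => h.1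

private theorem D3_fin_sol {L : ℕ} (σ : Sys L) : {w : List (Fin 4) | Loc w ∧ Sol σ w}.Finite :=
  (List.finite_length_eq (Fin 4) L).subset fun _ h => h.2.len

private theorem D3_union {α β : Type} [Fintype α] (s : α → Set β) (hs : ∀ a, (s a).Finite) :
    (⋃ a, s a).ncard ≤ ∑ a, (s a).ncard := by
  classical
  have h1 : (⋃ a, s a) = ((Finset.univ.biUnion fun a => (hs a).toFinset : Finset β) : Set β) := by
    ext x
    simp
  rw [h1, Set.ncard_coe_finset]
  refine Finset.card_biUnion_le.trans (Finset.sum_le_sum fun a _ => ?_)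
  rw [Set.ncard_eq_toFinset_card _ (hs a)]

theorem ncard_sol {K ρ : ℝ} (hK : 1 ≤ K) (hρ : 1 ≤ ρ) (hc : ∀ n, (cs n : ℝ) ≤ K * ρ ^ n) {L : ℕ} (hL : 15 ≤ L) (σ : Sys L) :
    ({w : List (Fin 4) | Loc w ∧ Sol σ w}.ncard : ℝ) ≤ K ^ 14 * ρ ^ ((L + 14) / 2) := by
  classical
  have hpos : (0 : ℝ) ≤ K ^ 14 * ρ ^ ((L + 14) / 2) := by positivity
  rcases Set.eq_empty_or_nonempty {w : List (Fin 4) | Loc w ∧ Sol σ w} with h0 | ⟨w0, -, hw0⟩
  · rw [h0, Set.ncard_empty, Nat.cast_zero]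
    exact hpos
  have hsum := hw0.sum
  set n : Fin 14 → ℕ := fun k => σ.v k - σ.u k with hn
  have hnL : ∀ k, n k < L := by
    intro k
    have h1 : n k ≤ ∑ k, n k := Finset.single_le_sum (f := n) (fun _ _ => Nat.zero_le _) (Finset.mem_univ k)
    have h2 : ∑ k, n k ≤ (L + 14) / 2 := hsum
    omega
  have hv : ∀ k, σ.v k ≤ L := fun k => Nat.lt_succ_iff.1 (σ.2.2.2 k).2.isLt
  have hfB : ∀ k : Fin 14, {x : List (Fin 4) | x.length = n k ∧ Saw x}.Finite := fun k => D3_fin (n k) Saw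
  let B : Fin 14 → Finset (List (Fin 4)) := fun k => (hfB k).toFinset
  have hB : ∀ k, (B k).card = cs (n k) := fun k => (Set.ncard_eq_toFinset_card _ (hfB k)).symm
  have h1 : {w : List (Fin 4) | Loc w ∧ Sol σ w}.ncard ≤ ((Fintype.piFinset B : Finset (Fin 14 → List (Fin 4))) : Set (Fin 14 → List (Fin 4))).ncard := by
    refine Set.ncard_le_ncard_of_injOn (fun w k => (w.drop (σ.u k)).take (σ.v k - σ.u k)) ?_ ?_ (Finset.finite_toSet _)
    · rintro w ⟨hloc, hsol⟩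
      rw [Finset.mem_coe, Fintype.mem_piFinset]
      intro k
      rw [Set.Finite.mem_toFinset]
      refine ⟨?_, hloc _ _ (by rw [hsol.len]; exact hnL k)⟩
      rw [List.length_take, List.length_drop, hsol.len]
      have := hv k
      simp only [hn]
      omega
    · rintro w ⟨hloc, hsol⟩ w' ⟨hloc', hsol'⟩ h
      exact sol_unique hsol hsol' fun k => congrFun h k
  rw [Set.ncard_coe_finset, Fintype.card_piFinset] at h1
  calc ({w : List (Fin 4) | Loc w ∧ Sol σ w}.ncard : ℝ) ≤ ((∏ k, (B k).card : ℕ) : ℝ) := by exact_mod_cast h1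
    _ = ∏ k, (cs (n k) : ℝ) := by
        rw [Nat.cast_prod]
        exact Finset.prod_congr rfl fun k _ => by rw [hB]
    _ ≤ ∏ k : Fin 14, (K * ρ ^ n k) := Finset.prod_le_prod (fun k _ => Nat.cast_nonneg _) fun k _ => hc _
    _ = K ^ 14 * ρ ^ (∑ k, n k) := by
        rw [Finset.prod_mul_distrib, Finset.prod_const, Finset.card_univ, Fintype.card_fin, Finset.prod_pow_eq_pow_sum]
    _ ≤ K ^ 14 * ρ ^ ((L + 14) / 2) :=
        mul_le_mul_of_nonneg_left (pow_le_pow_right₀ hρ hsum) (by positivity)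

theorem ncard_six_le {K ρ : ℝ} (hK : 1 ≤ K) (hρ : 1 ≤ ρ) (hc : ∀ n, (cs n : ℝ) ≤ K * ρ ^ n) {L : ℕ} (hL : 15 ≤ L) :
    ({w : List (Fin 4) | w.length = L ∧ Loc w ∧ Six w}.ncard : ℝ) ≤
      2 ^ 57 * (2 * (L : ℝ) + 1) ^ 57 * (K ^ 14 * ρ ^ ((L + 14) / 2)) := by
  classical
  have hfin : (⋃ σ : Sys L, {w : List (Fin 4) | Loc w ∧ Sol σ w}).Finite := Set.finite_iUnion fun σ => D3_fin_sol σ
  have h1 : {w : List (Fin 4) | w.length = L ∧ Loc w ∧ Six w} ⊆ ⋃ σ : Sys L, {w : List (Fin 4) | Loc w ∧ Sol σ w} := by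
    rintro w ⟨h1, h2, h3⟩
    obtain ⟨σ, hσ⟩ := exists_sol h1 h3
    exact Set.mem_iUnion.2 ⟨σ, h2, hσ⟩
  have h2 : {w : List (Fin 4) | w.length = L ∧ Loc w ∧ Six w}.ncard ≤ ∑ σ : Sys L, {w : List (Fin 4) | Loc w ∧ Sol σ w}.ncard :=
    (Set.ncard_le_ncard h1 hfin).trans (D3_union _ fun σ => D3_fin_sol σ)
  have hpos : (0 : ℝ) ≤ K ^ 14 * ρ ^ ((L + 14) / 2) := by positivity
  calc ({w : List (Fin 4) | w.length = L ∧ Loc w ∧ Six w}.ncard : ℝ)
      ≤ ((∑ σ : Sys L, {w : List (Fin 4) | Loc w ∧ Sol σ w}.ncard : ℕ) : ℝ) := by exact_mod_cast h2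
    _ = ∑ σ : Sys L, ({w : List (Fin 4) | Loc w ∧ Sol σ w}.ncard : ℝ) := Nat.cast_sum _ _
    _ ≤ ∑ _σ : Sys L, K ^ 14 * ρ ^ ((L + 14) / 2) := Finset.sum_le_sum fun σ _ => ncard_sol hK hρ hc hL σ
    _ = (Fintype.card (Sys L) : ℝ) * (K ^ 14 * ρ ^ ((L + 14) / 2)) := by
        rw [Finset.sum_const, Finset.card_univ, nsmul_eq_mul]
    _ ≤ 2 ^ 57 * (2 * (L : ℝ) + 1) ^ 57 * (K ^ 14 * ρ ^ ((L + 14) / 2)) := by
        refine mul_le_mul_of_nonneg_right ?_ hpos
        have h3 := card_sys L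
        exact_mod_cast h3

end Pool.Agent.PT
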