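import Mathlib

/-!
# Polyominoes without holes, boundary words, tilings, self-avoiding walks: definitions

Cells and lattice points are elements of `V = ℤ × ℤ`; the cell `(x, y)` is the unit square with lower left corner
`(x, y)`. Directions are elements of `Fin 4`: `vec 0, ..., vec 3` = east, north, west, south. The four cells around the
lattice point `p` are `p + co 0, ..., p + co 3` (first, second, third, fourth quadrant). The edge from the point `p` in
the direction `d` has the cell `p + co d` on its left side and `p + co (d + 3)` on its right side.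
-/

set_option autoImplicit false

namespace Pool.Agent.PT

/-- cells, lattice points -/
abbrev V : Type := ℤ × ℤ

/-- the unit vectors: east, north, west, south -/
def vec (d : Fin 4) : V := ![(1, 0), (0, 1), (-1, 0), (0, -1)] d

/-- the cells around the origin -/
def co (j : Fin 4) : V := ![(0, 0), (-1, 0), (-1, -1), (0, -1)] j

/-- two cells are adjacent iff they share an edge -/
def Adj (p q : V) : Prop := |p.1 - q.1| + |p.2 - q.2| = 1

/-- the graph of the cells (the graph of the frozen statements) -/
def gridG : SimpleGraph V := SimpleGraph.fromRel (fun p q : V => |p.1 - q.1| + |p.2 - q.2| = 1)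

/-- polyominoes without holes: finite sets of cells, the set and its complement are edge-connected -/
structure Poly (S : Set V) : Prop where
  fin : S.Finite
  con : (gridG.induce S).Connected
  cocon : (gridG.induce Sᶜ).Connected

/-- the coefficients of the eight rotations and reflections of the grid -/
def IsOrth (a b c d : ℤ) : Prop :=
  (b = 0 ∧ c = 0 ∧ a ^ 2 = 1 ∧ d ^ 2 = 1) ∨ (a = 0 ∧ d = 0 ∧ b ^ 2 = 1 ∧ c ^ 2 = 1)

/-- `S` tiles the plane by rotated, reflected and translated copies (as in the frozen statements) -/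
def Tiles (S : Set V) : Prop :=
  ∃ T : Set (Set V),
    (∀ t ∈ T, ∃ a b c d u v : ℤ, IsOrth a b c d ∧
      t = (fun p : V => (a * p.1 + b * p.2 + u, c * p.1 + d * p.2 + v)) '' S) ∧
    ∀ p : V, ∃! t : Set V, t ∈ T ∧ p ∈ t

/-- `S` tiles the plane by translated copies -/
def TilesTrans (S : Set V) : Prop :=
  ∃ T : Set (Set V), (∀ t ∈ T, ∃ u v : ℤ, t = (fun p : V => (p.1 + u, p.2 + v)) '' S) ∧
    ∀ p : V, ∃! t : Set V, t ∈ T ∧ p ∈ t

/-- the perimeter: the number of pairs of adjacent cells, the first in `S`, the second not -/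
noncomputable def perim (S : Set V) : ℕ :=
  {e : V × V | e.1 ∈ S ∧ e.2 ∉ S ∧ |e.1.1 - e.2.1| + |e.1.2 - e.2.2| = 1}.ncard

/-- the representative of a set of cells up to translations: the least coordinates are 0 -/
def Normal (S : Set V) : Prop :=
  (∀ p ∈ S, 0 ≤ p.1 ∧ 0 ≤ p.2) ∧ (∃ p ∈ S, p.1 = 0) ∧ ∃ p ∈ S, p.2 = 0

/-- the translated set -/
def shift (t : V) (S : Set V) : Set V := (fun p => p + t) '' S

/-! ### Boundary edges and boundary polygons -/

/-- the edge from `p` in the direction `d` is a boundary edge of `S` -/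
def BE (S : Set V) (p : V) (d : Fin 4) : Prop := ¬ (p + co d ∈ S ↔ p + co (d + 3) ∈ S)

/-- a simple closed polygon of length `L`: points `γ i`, directions `δ i` -/
structure Pgn (L : ℕ) (γ : ZMod L → V) (δ : ZMod L → Fin 4) : Prop where
  three : 3 ≤ L
  inj : Function.Injective γ
  step : ∀ i, γ (i + 1) = γ i + vec (δ i)

/-- the edges of the polygon (in both directions) -/
def PE {L : ℕ} (γ : ZMod L → V) (δ : ZMod L → Fin 4) (p : V) (d : Fin 4) : Prop :=
  ∃ i, (γ i = p ∧ δ i = d) ∨ (γ (i + 1) = p ∧ δ i + 2 = d)

/-- the polygon is the boundary of `S`, and `S` is on the left side -/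
structure Ring (S : Set V) (L : ℕ) (γ : ZMod L → V) (δ : ZMod L → Fin 4) : Prop where
  pgn : Pgn L γ δ
  bd : ∀ p d, BE S p d ↔ PE γ δ p d
  left : ∀ i, γ i + co (δ i) ∈ S

/-- the word of the directions -/
def wordOf {L : ℕ} (δ : ZMod L → Fin 4) : List (Fin 4) := (List.range L).map fun i => δ (i : ZMod L)

/-! ### Words and walks -/

/-- the point reached after `i` steps of the walk `w` from the origin -/
def pt (w : List (Fin 4)) (i : ℕ) : V := ((w.take i).map vec).sum

/-- the end point -/
def en (w : List (Fin 4)) : V := (w.map vec).sum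

/-- self-avoiding walks -/
def Saw (w : List (Fin 4)) : Prop := ∀ i ≤ w.length, ∀ j ≤ w.length, pt w i = pt w j → i = j

/-- self-avoiding walks in a half plane -/
def Half (w : List (Fin 4)) : Prop := Saw w ∧ ∀ i, 0 < i → i ≤ w.length → 0 < (pt w i).1

/-- bridges -/
def Bridge (w : List (Fin 4)) : Prop :=
  Saw w ∧ ∀ i, 0 < i → i ≤ w.length → 0 < (pt w i).1 ∧ (pt w i).1 ≤ (en w).1

/-- the number of self-avoiding walks of length `n` -/
noncomputable def cs (n : ℕ) : ℕ := {w : List (Fin 4) | w.length = n ∧ Saw w}.ncard

/-- the number of half plane walks of length `n` -/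
noncomputable def hs (n : ℕ) : ℕ := {w : List (Fin 4) | w.length = n ∧ Half w}.ncard

/-- the number of bridges of length `n` -/
noncomputable def bs (n : ℕ) : ℕ := {w : List (Fin 4) | w.length = n ∧ Bridge w}.ncard

/-- all short factors of `w` are self-avoiding -/
def Loc (w : List (Fin 4)) : Prop := ∀ s n, n < w.length → Saw ((w.drop s).take n)

/-! ### Words in which pieces are congruent to other parts -/

/-- labels `(ε, α, ρ, r)`: `α + i - L` or `α - i`; `r - d` or `d + r` -/
abbrev Lab : Type := Bool × ℕ × Bool × Fin 4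

/-- the partner of the position `i` (`ε = true`: increasing, `ε = false`: decreasing) -/
def Lab.pos (l : Lab) (L i : ℕ) : ℕ := if l.1 then l.2.1 + i - L else l.2.1 - i

/-- the partner of the position `i` exists -/
def Lab.ok (l : Lab) (L i : ℕ) : Prop :=
  if l.1 then L ≤ l.2.1 + i ∧ l.2.1 + i < 2 * L else i ≤ l.2.1 ∧ l.2.1 < i + L

/-- the map of the directions (`ρ = true`: a reflection, `ρ = false`: a rotation) -/
def Lab.dir (l : Lab) (d : Fin 4) : Fin 4 := if l.2.2.1 then l.2.2.2 - d else d + l.2.2.2

/-- the positions `s, ..., e - 1` of `w` are a piece: they are congruent to another part of `w` -/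
def Piece (w : List (Fin 4)) (s e : ℕ) : Prop :=
  ∃ l : Lab, l.2.1 ≤ 2 * w.length ∧
    (∀ i, s ≤ i → i < e → l.ok w.length i ∧ w.getD i 0 = l.dir (w.getD (l.pos w.length i) 0)) ∧
    (l.1 = true → l.2.1 = w.length → e ≤ s + 1)

/-- `w` is a concatenation of 14 pieces (some may be empty) -/
def Six (w : List (Fin 4)) : Prop :=
  ∃ c : ℕ → ℕ, c 0 = 0 ∧ c 14 = w.length ∧ ∀ k < 14, c k ≤ c (k + 1) ∧ Piece w (c k) (c (k + 1))

/-! ### The numbers -/

/-- the set of the cells in a list -/
def cells (l : List (ℕ × ℕ)) : Set V := {p | ∃ q ∈ l, p = ((q.1 : ℤ), (q.2 : ℤ))}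

/-- the polyominoes without holes of perimeter `L`, up to translations -/
def allS (L : ℕ) : Set (Set V) := {S | Poly S ∧ Normal S ∧ perim S = L}

/-- their number -/
noncomputable def cntAll (L : ℕ) : ℕ := (allS L).ncard

/-- the number of those which tile the plane -/
noncomputable def cntTile (L : ℕ) : ℕ := {S | Poly S ∧ Normal S ∧ perim S = L ∧ Tiles S}.ncard

/-- the number of those which tile the plane by translations -/
noncomputable def cntTrans (L : ℕ) : ℕ := {S | Poly S ∧ Normal S ∧ perim S = L ∧ TilesTrans S}.ncard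

/-- the number of those for which the algorithm `D` does not answer `true`, for some list of their cells -/
noncomputable def cntUnk (D : List (ℕ × ℕ) → Bool) (L : ℕ) : ℕ :=
  {S | Poly S ∧ Normal S ∧ perim S = L ∧ ∃ l, cells l = S ∧ D l = false}.ncard

/-- the number of polyominoes without holes with `n` cells, up to translations -/
noncomputable def areaAll (n : ℕ) : ℕ := {S | Poly S ∧ Normal S ∧ S.ncard = n}.ncard

/-- the number of those for which the algorithm `D` does not answer `true`, for some list of their cells -/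
noncomputable def areaUnk (D : List (ℕ × ℕ) → Bool) (n : ℕ) : ℕ :=
  {S | Poly S ∧ Normal S ∧ S.ncard = n ∧ ∃ l, cells l = S ∧ D l = false}.ncard

end Pool.Agent.PT
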