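import Pool.Agent.Lib.MP_ed987a_lc.PT.D3

/-!
# TASK E1: the upper bound for the exponential growth

(`cs_bound`) for `ρ` with `log ρ > log μ`: `log (cs n) / n ≤ log ρ` for all large `n`, so `cs n ≤ ρ ^ n`, and `K` = maximum of `1` and the finitely many quotients `cs n / ρ ^ n`.
(`six_upper`) `ρ = exp (log μ + η)`, `ncard_six_le` for `L = 2 k`: `log` of the right side is `57 log 2 + 57 log (4 k + 1) + 14 log K + (k + 7) log ρ` (`(2 k + 14) / 2 = k + 7`), divided by
`2 k` it tends to `(log ρ) / 2 = (log μ + η) / 2`. (If the number of words is `0` then the logarithm is `0`; `log μ > 0`.)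
-/

set_option autoImplicit false

open Filter Topology

namespace Pool.Agent.PT

theorem cs_bound {μ ρ : ℝ} (hμ : 2 ≤ μ) (hρ : μ < ρ)
    (h : Tendsto (fun n : ℕ => Real.log (cs n) / n) atTop (𝓝 (Real.log μ))) :
    ∃ K : ℝ, 1 ≤ K ∧ ∀ n, (cs n : ℝ) ≤ K * ρ ^ n := by
  have hμ0 : (0 : ℝ) < μ := by linarith
  have hρ1 : (1 : ℝ) ≤ ρ := by linarith
  have hρ0 : (0 : ℝ) < ρ := by linarith
  have hlt : Real.log μ < Real.log ρ := Real.log_lt_log hμ0 hρ
  obtain ⟨N, hN⟩ := eventually_atTop.1 (h.eventually (gt_mem_nhds hlt))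
  refine ⟨1 + ∑ m ∈ Finset.range (N + 1), (cs m : ℝ), ?_, ?_⟩
  · have : (0 : ℝ) ≤ ∑ m ∈ Finset.range (N + 1), (cs m : ℝ) := Finset.sum_nonneg fun _ _ => Nat.cast_nonneg _
    linarith
  · intro n
    have hpow : (1 : ℝ) ≤ ρ ^ n := one_le_pow₀ hρ1
    have hS : (0 : ℝ) ≤ ∑ m ∈ Finset.range (N + 1), (cs m : ℝ) := Finset.sum_nonneg fun _ _ => Nat.cast_nonneg _
    by_cases hn : n < N + 1
    · have h1 : (cs n : ℝ) ≤ ∑ m ∈ Finset.range (N + 1), (cs m : ℝ) :=
        Finset.single_le_sum (f := fun m => (cs m : ℝ)) (fun _ _ => Nat.cast_nonneg _) (Finset.mem_range.2 hn)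
      nlinarith
    · push Not at hn
      have hn0 : (0 : ℝ) < (n : ℝ) := by
        have : 0 < n := by omega
        exact_mod_cast this
      have h2 := hN n (by omega)
      rw [div_lt_iff₀ hn0] at h2
      have h3 : (cs n : ℝ) ≤ ρ ^ n := by
        rcases Nat.eq_zero_or_pos (cs n) with h0 | h0
        · rw [h0]; simp; positivity
        · have h0' : (0 : ℝ) < (cs n : ℝ) := by exact_mod_cast h0
          rw [← Real.log_le_log_iff h0' (by positivity), Real.log_pow]
          linarith [mul_comm (Real.log ρ) (n : ℝ)]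
      nlinarith

private theorem E1_lim (C η : ℝ) (hη : 0 < η) : ∀ᶠ k : ℕ in atTop,
    (C + 57 * Real.log (4 * (k : ℝ) + 1)) / (2 * (k : ℝ)) ≤ η / 2 := by
  have h1 : Tendsto (fun x : ℝ => Real.log x ^ 1 / ((1 / 2) * x + (-1 / 2))) atTop (𝓝 0) :=
    Real.tendsto_pow_log_div_mul_add_atTop (1 / 2) (-1 / 2) 1 (by norm_num)
  have h2 : Tendsto (fun k : ℕ => 4 * (k : ℝ) + 1) atTop atTop := by
    refine tendsto_atTop_add_const_right _ _ ?_
    exact Tendsto.const_mul_atTop (by norm_num) tendsto_natCast_atTop_atTop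
  have h3 : Tendsto (fun k : ℕ => Real.log (4 * (k : ℝ) + 1) / (2 * (k : ℝ))) atTop (𝓝 0) := by
    refine (h1.comp h2).congr fun k => ?_
    simp only [Function.comp, pow_one]
    congr 1
    ring
  have h4 : Tendsto (fun k : ℕ => (C / 2) / (k : ℝ)) atTop (𝓝 0) := tendsto_const_div_atTop_nhds_zero_nat _
  have h5 : Tendsto (fun k : ℕ => (C / 2) / (k : ℝ) + 57 * (Real.log (4 * (k : ℝ) + 1) / (2 * (k : ℝ)))) atTop
      (𝓝 (0 + 57 * 0)) := h4.add (h3.const_mul 57)
  rw [mul_zero, add_zero] at h5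
  filter_upwards [h5.eventually (gt_mem_nhds (show (0 : ℝ) < η / 2 by linarith)), eventually_gt_atTop 0] with k hk hk0
  refine le_of_eq_of_le ?_ hk.le
  have hk0' : (k : ℝ) ≠ 0 := by exact_mod_cast hk0.ne'
  field_simp

theorem six_upper {μ : ℝ} (hμ : 2 ≤ μ) (h : Tendsto (fun n : ℕ => Real.log (cs n) / n) atTop (𝓝 (Real.log μ)))
    {η : ℝ} (hη : 0 < η) : ∀ᶠ k : ℕ in atTop,
      Real.log ({w : List (Fin 4) | w.length = 2 * k ∧ Loc w ∧ Six w}.ncard : ℝ) / (2 * (k : ℝ)) ≤ Real.log μ / 2 + η := by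
  have hμ0 : (0 : ℝ) < μ := by linarith
  have hlogμ : 0 ≤ Real.log μ := Real.log_nonneg (by linarith)
  set ρ : ℝ := Real.exp (Real.log μ + η) with hρdef
  have hρμ : μ < ρ := by
    have : Real.exp (Real.log μ) < Real.exp (Real.log μ + η) := Real.exp_lt_exp.2 (by linarith)
    rwa [Real.exp_log hμ0] at this
  have hlogρ : Real.log ρ = Real.log μ + η := Real.log_exp _
  have hρ1 : 1 ≤ ρ := by linarith
  have hρ0 : 0 < ρ := by linarith
  obtain ⟨K, hK, hc⟩ := cs_bound hμ hρμ h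
  have hK0 : 0 < K := by linarith
  filter_upwards [E1_lim (57 * Real.log 2 + 14 * Real.log K + 7 * Real.log ρ) η hη, eventually_ge_atTop 8] with k hk hk8
  have hkpos : (0 : ℝ) < 2 * (k : ℝ) := by
    have : (8 : ℝ) ≤ (k : ℝ) := by exact_mod_cast hk8
    linarith
  have hb := ncard_six_le hK hρ1 hc (L := 2 * k) (by omega)
  have hexp : (2 * k + 14) / 2 = k + 7 := by omega
  rw [hexp] at hb
  set X : ℕ := {w : List (Fin 4) | w.length = 2 * k ∧ Loc w ∧ Six w}.ncard with hX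
  rcases Nat.eq_zero_or_pos X with h0 | h0
  · rw [h0]
    simp only [Nat.cast_zero, Real.log_zero, zero_div]
    linarith
  · have h0' : (0 : ℝ) < (X : ℝ) := by exact_mod_cast h0
    have hA : (0 : ℝ) < 2 * ((2 * k : ℕ) : ℝ) + 1 := by positivity
    have hlog := Real.log_le_log h0' hb
    rw [Real.log_mul (by positivity) (by positivity), Real.log_mul (by positivity) (by positivity),
      Real.log_mul (by positivity) (by positivity), Real.log_pow, Real.log_pow, Real.log_pow, Real.log_pow] at hlog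
    have hcast : 2 * ((2 * k : ℕ) : ℝ) + 1 = 4 * (k : ℝ) + 1 := by push_cast; ring
    rw [hcast] at hlog
    push_cast at hlog
    rw [div_le_iff₀ hkpos] at hk ⊢
    rw [hlogρ] at hlog hk
    nlinarith

end Pool.Agent.PT
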