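import Pool.Agent.Lib.MP_ed987a_lc.PT.Defs

/-!
# TASK E2: the lower bounds for the exponential growth

`hC`: for `m ≥ 1`, `4 m < H`: `bs m ^ k ≤ 2 ^ k * cntTrans (2 (k m + 1) + 2 H)`. Given `η`, choose `m ≥ 1` with `log (bs m) / m ≥ log μ - η / 2` and `log 2 / m ≤ η / 2`. For large `K` let
`k = (K - 5 m - 2) / m` (natural numbers), `H = K - k m - 1`; then `2 (k m + 1) + 2 H = 2 K`, `H > 4 m`, `k m ≥ K - 6 m - 2`. `log (cntTrans (2 K)) ≥ k (log (bs m) - log 2) ≥ k m (log μ - η)`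
(if `log μ - η ≥ 0`; otherwise the claim is trivial), divided by `2 K` it is eventually `≥ log μ / 2 - η`.
For `cntAll`: `log (cntAll (2 K)) ≥ 2 k (log (bs m) - log 2) - 2 log ((k m + 2) (2 m + 1))`, and `log ((K + 2) (2 m + 1)) / K → 0`.
-/

set_option autoImplicit false

open Filter Topology

namespace Pool.Agent.PT

private theorem E2_pick {μ : ℝ} (h : Tendsto (fun n : ℕ => Real.log (bs n) / n) atTop (𝓝 (Real.log μ)))
    {η : ℝ} (hη : 0 < η) : ∃ m : ℕ, 1 ≤ m ∧ Real.log μ - η ≤ (Real.log (bs m) - Real.log 2) / m := by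
  have h1 : Tendsto (fun n : ℕ => Real.log (bs n) / n - Real.log 2 / n) atTop (𝓝 (Real.log μ - 0)) :=
    h.sub (tendsto_const_div_atTop_nhds_zero_nat _)
  rw [sub_zero] at h1
  have h2 : ∀ᶠ n : ℕ in atTop, Real.log μ - η < Real.log (bs n) / n - Real.log 2 / n :=
    h1.eventually (lt_mem_nhds (by linarith))
  obtain ⟨m, hm1, hm2⟩ := ((eventually_ge_atTop 1).and h2).exists
  refine ⟨m, hm1, ?_⟩
  rw [sub_div]
  exact hm2.le

private theorem E2_arith (m K : ℕ) (hm : 1 ≤ m) (hK : 6 * m + 2 ≤ K) :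
    ∃ k H : ℕ, 4 * m < H ∧ 2 * (k * m + 1) + 2 * H = 2 * K ∧ K ≤ k * m + (6 * m + 2) ∧ k * m ≤ K := by
  have h1 : (K - 5 * m - 2) / m * m ≤ K - 5 * m - 2 := Nat.div_mul_le_self _ _
  have h2 : K - 5 * m - 2 < (K - 5 * m - 2) / m * m + m := by
    have h3 := Nat.lt_div_mul_add (a := K - 5 * m - 2) (b := m) (by omega)
    exact h3
  refine ⟨(K - 5 * m - 2) / m, K - (K - 5 * m - 2) / m * m - 1, ?_, ?_, ?_, ?_⟩ <;> omega

private theorem E2_log_nonneg (n : ℕ) : 0 ≤ Real.log n := Real.log_natCast_nonneg n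

theorem trans_lower {μ : ℝ} (hμ : 2 ≤ μ) (hpos : ∀ n, 1 ≤ bs n)
    (h : Tendsto (fun n : ℕ => Real.log (bs n) / n) atTop (𝓝 (Real.log μ)))
    (hC : ∀ m k H : ℕ, 1 ≤ m → 4 * m < H → bs m ^ k ≤ 2 ^ k * cntTrans (2 * (k * m + 1) + 2 * H))
    {η : ℝ} (hη : 0 < η) : ∀ᶠ K : ℕ in atTop, Real.log μ / 2 - η ≤ Real.log (cntTrans (2 * K)) / (2 * (K : ℝ)) := by
  obtain ⟨m, hm, hc⟩ := E2_pick h hη
  have hm0 : (0:ℝ) < m := by exact_mod_cast hm
  set c : ℝ := (Real.log (bs m) - Real.log 2) / m with hcdef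
  have hcm : c * m = Real.log (bs m) - Real.log 2 := by
    rw [hcdef]
    field_simp
  have hb : ∀ᶠ K : ℕ in atTop, (6 * (m : ℝ) + 2) * max c 0 / η ≤ K :=
    tendsto_natCast_atTop_atTop.eventually (eventually_ge_atTop _)
  filter_upwards [hb, eventually_ge_atTop (6 * m + 2)] with K h1 h2
  obtain ⟨k, H, h3, h4, h5, h6⟩ := E2_arith m K hm h2
  have hK0 : (0:ℝ) < K := by
    have : 0 < K := by omega
    exact_mod_cast this
  have h7 : (k * m : ℝ) * max c 0 ≤ Real.log (cntTrans (2 * K)) := by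
    rcases le_or_gt c 0 with h8 | h8
    · rw [max_eq_right h8, mul_zero]
      exact E2_log_nonneg _
    · rw [max_eq_left h8.le]
      have h9 := hC m k H hm h3
      rw [h4] at h9
      have hbp : (0:ℝ) < (bs m : ℝ) := by
        have := hpos m
        exact_mod_cast this
      have hct : (0:ℝ) < (cntTrans (2 * K) : ℝ) := by
        rcases Nat.eq_zero_or_pos (cntTrans (2 * K)) with h10 | h10
        · rw [h10, mul_zero] at h9
          have h11 : 0 < bs m ^ k := pow_pos (by have := hpos m; omega) k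
          omega
        · exact_mod_cast h10
      have h10 : (bs m : ℝ) ^ k ≤ 2 ^ k * (cntTrans (2 * K) : ℝ) := by exact_mod_cast h9
      have h11 := Real.log_le_log (pow_pos hbp k) h10
      rw [Real.log_pow, Real.log_mul (by positivity) hct.ne', Real.log_pow] at h11
      have h12 : (k * m : ℝ) * c = k * (Real.log (bs m) - Real.log 2) := by
        rw [← hcm]
        ring
      rw [h12]
      linarith
  have hc0 : 0 ≤ max c 0 := le_max_right _ _
  have hc1 : Real.log μ - η ≤ max c 0 := hc.trans (le_max_left _ _)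
  have h8 : ((K : ℝ) - (6 * m + 2)) * max c 0 ≤ Real.log (cntTrans (2 * K)) := by
    refine le_trans (mul_le_mul_of_nonneg_right ?_ hc0) h7
    have h9 : (K : ℝ) ≤ k * m + (6 * m + 2) := by exact_mod_cast h5
    linarith
  rw [div_le_iff₀ hη] at h1
  rw [le_div_iff₀ (by positivity)]
  nlinarith

theorem all_lower {μ : ℝ} (hμ : 2 ≤ μ) (hpos : ∀ n, 1 ≤ bs n)
    (h : Tendsto (fun n : ℕ => Real.log (bs n) / n) atTop (𝓝 (Real.log μ)))
    (hC : ∀ m k H : ℕ, 1 ≤ m → 4 * m < H →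
      (bs m ^ k) ^ 2 ≤ (2 ^ k * ((k * m + 2) * (2 * m + 1))) ^ 2 * cntAll (2 * (k * m + 1) + 2 * H))
    {η : ℝ} (hη : 0 < η) : ∀ᶠ K : ℕ in atTop, Real.log μ - η ≤ Real.log (cntAll (2 * K)) / (2 * (K : ℝ)) := by
  obtain ⟨m, hm, hc⟩ := E2_pick h (half_pos hη)
  have hm0 : (0:ℝ) < m := by exact_mod_cast hm
  set c : ℝ := (Real.log (bs m) - Real.log 2) / m with hcdef
  have hcm : c * m = Real.log (bs m) - Real.log 2 := by
    rw [hcdef]
    field_simp
  have hlog : ∀ᶠ x : ℝ in atTop, ‖Real.log x‖ ≤ (η / 8) * ‖x‖ := by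
    have := Real.isLittleO_log_id_atTop.bound (by linarith : 0 < η / 8)
    exact this
  have hlog2 : ∀ᶠ K : ℕ in atTop, ‖Real.log ((K : ℝ) + 2)‖ ≤ (η / 8) * ‖(K : ℝ) + 2‖ :=
    (tendsto_atTop_add_const_right _ (2:ℝ) tendsto_natCast_atTop_atTop).eventually hlog
  have hb : ∀ᶠ K : ℕ in atTop, ((6 * (m : ℝ) + 2) * max c 0 + Real.log (2 * (m : ℝ) + 1) + η) / (η / 4) ≤ K :=
    tendsto_natCast_atTop_atTop.eventually (eventually_ge_atTop _)
  filter_upwards [hb, hlog2, eventually_ge_atTop (6 * m + 2)] with K h1 hl h2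
  obtain ⟨k, H, h3, h4, h5, h6⟩ := E2_arith m K hm h2
  have hK0 : (0:ℝ) < K := by
    have : 0 < K := by omega
    exact_mod_cast this
  have hlm : 0 ≤ Real.log (2 * (m : ℝ) + 1) := Real.log_nonneg (by linarith)
  have hlk : 0 ≤ Real.log ((K : ℝ) + 2) := Real.log_nonneg (by linarith)
  have h7 : 2 * ((k * m : ℝ) * max c 0) ≤ Real.log (cntAll (2 * K)) +
      2 * (Real.log ((K : ℝ) + 2) + Real.log (2 * (m : ℝ) + 1)) := by
    rcases le_or_gt c 0 with h8 | h8
    · rw [max_eq_right h8, mul_zero, mul_zero]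
      have := E2_log_nonneg (cntAll (2 * K))
      linarith
    · rw [max_eq_left h8.le]
      have h9 := hC m k H hm h3
      rw [h4] at h9
      have hbp : (0:ℝ) < (bs m : ℝ) := by
        have := hpos m
        exact_mod_cast this
      have hct : (0:ℝ) < (cntAll (2 * K) : ℝ) := by
        rcases Nat.eq_zero_or_pos (cntAll (2 * K)) with h10 | h10
        · rw [h10, mul_zero] at h9
          have h11 : 0 < (bs m ^ k) ^ 2 := pow_pos (pow_pos (by have := hpos m; omega) k) 2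
          omega
        · exact_mod_cast h10
      have h10 : ((bs m : ℝ) ^ k) ^ 2 ≤ (2 ^ k * (((k * m : ℝ) + 2) * (2 * (m : ℝ) + 1))) ^ 2 * (cntAll (2 * K) : ℝ) := by
        exact_mod_cast h9
      have h11 := Real.log_le_log (pow_pos (pow_pos hbp k) 2) h10
      have hkm : (0:ℝ) < (k * m : ℝ) + 2 := by positivity
      rw [Real.log_pow, Real.log_pow, Real.log_mul (by positivity) hct.ne', Real.log_pow,
        Real.log_mul (by positivity) (by positivity), Real.log_pow, Real.log_mul hkm.ne' (by positivity)] at h11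
      have h12 : (k * m : ℝ) * c = k * (Real.log (bs m) - Real.log 2) := by
        rw [← hcm]
        ring
      have h13 : Real.log ((k * m : ℝ) + 2) ≤ Real.log ((K : ℝ) + 2) := by
        refine Real.log_le_log hkm ?_
        have : (k * m : ℝ) ≤ K := by exact_mod_cast h6
        linarith
      rw [h12]
      push_cast at h11
      linarith
  have hc0 : 0 ≤ max c 0 := le_max_right _ _
  have hc1 : Real.log μ - η / 2 ≤ max c 0 := hc.trans (le_max_left _ _)
  have h8 : 2 * (((K : ℝ) - (6 * m + 2)) * max c 0) ≤ Real.log (cntAll (2 * K)) +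
      2 * (Real.log ((K : ℝ) + 2) + Real.log (2 * (m : ℝ) + 1)) := by
    refine le_trans (mul_le_mul_of_nonneg_left (mul_le_mul_of_nonneg_right ?_ hc0) (by norm_num)) h7
    have h9 : (K : ℝ) ≤ k * m + (6 * m + 2) := by exact_mod_cast h5
    linarith
  rw [div_le_iff₀ (by linarith : 0 < η / 4)] at h1
  rw [Real.norm_of_nonneg hlk, Real.norm_of_nonneg (by linarith : 0 ≤ (K : ℝ) + 2)] at hl
  rw [le_div_iff₀ (by positivity)]
  nlinarith

end Pool.Agent.PT
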