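import Pool.Agent.Lib.MP_ed987a_lc.PT.Defs

/-!
# TASK E3: the upper bound for the number of all polyominoes without holes

`cntAll (2 K) ≤ 4 cs (2 K - 1)`: `log (cntAll (2 K)) / (2 K) ≤ (log 4 + log (cs (2 K - 1))) / (2 K)`, and `log (cs (2 K - 1)) / (2 K) = (log (cs (2 K - 1)) / (2 K - 1)) * ((2 K - 1) / (2 K)) → log μ`. (If `cntAll = 0` the
logarithm is `0 ≤ log μ`.)
-/

set_option autoImplicit false

open Filter Topology

namespace Pool.Agent.PT

theorem all_upper {μ : ℝ} (hμ : 2 ≤ μ) (hpos : ∀ n, 1 ≤ cs n)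
    (h : Tendsto (fun n : ℕ => Real.log (cs n) / n) atTop (𝓝 (Real.log μ))) (hc : ∀ L, cntAll (L + 1) ≤ 4 * cs L)
    {η : ℝ} (hη : 0 < η) : ∀ᶠ K : ℕ in atTop, Real.log (cntAll (2 * K)) / (2 * (K : ℝ)) ≤ Real.log μ + η := by
  have hlog : 0 ≤ Real.log μ := Real.log_nonneg (by linarith)
  have h1 : ∀ᶠ n : ℕ in atTop, Real.log (cs n) / n < Real.log μ + η / 2 :=
    h.eventually_lt_const (by linarith)
  have h2 : Tendsto (fun K : ℕ => 2 * K - 1) atTop atTop :=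
    tendsto_atTop_atTop.2 fun b => ⟨b + 1, fun a ha => by omega⟩
  have h3 := h2.eventually h1
  have h4 : ∀ᶠ K : ℕ in atTop, Real.log 4 ≤ η * (K : ℝ) := by
    have h5 : Tendsto (fun K : ℕ => η * (K : ℝ)) atTop atTop :=
      tendsto_natCast_atTop_atTop.const_mul_atTop hη
    exact h5.eventually_ge_atTop _
  filter_upwards [h3, h4, eventually_ge_atTop 1] with K hK3 hK4 hK1
  have hKpos : (0 : ℝ) < 2 * (K : ℝ) := by
    have : (1 : ℝ) ≤ (K : ℝ) := by exact_mod_cast hK1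
    linarith
  rw [div_le_iff₀ hKpos]
  have hn1 : 1 ≤ 2 * K - 1 := by omega
  have hnpos : (0 : ℝ) < ((2 * K - 1 : ℕ) : ℝ) := by exact_mod_cast hn1
  have hcs1 : (1 : ℝ) ≤ (cs (2 * K - 1) : ℝ) := by exact_mod_cast hpos (2 * K - 1)
  have hcs : Real.log (cs (2 * K - 1)) ≤ (Real.log μ + η / 2) * (2 * (K : ℝ)) := by
    have h6 : Real.log (cs (2 * K - 1)) ≤ (Real.log μ + η / 2) * ((2 * K - 1 : ℕ) : ℝ) := by
      have h7 := (div_lt_iff₀ hnpos).1 hK3
      exact h7.le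
    have h8 : ((2 * K - 1 : ℕ) : ℝ) ≤ 2 * (K : ℝ) := by
      have : (2 * K - 1 : ℕ) ≤ 2 * K := by omega
      exact_mod_cast this
    exact h6.trans (mul_le_mul_of_nonneg_left h8 (by linarith))
  have hcnt : (cntAll (2 * K) : ℝ) ≤ 4 * (cs (2 * K - 1) : ℝ) := by
    have h9 := hc (2 * K - 1)
    have h10 : 2 * K - 1 + 1 = 2 * K := by omega
    rw [h10] at h9
    exact_mod_cast h9
  rcases Nat.eq_zero_or_pos (cntAll (2 * K)) with h0 | h0
  · rw [h0, Nat.cast_zero, Real.log_zero]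
    exact mul_nonneg (by linarith) hKpos.le
  · have h0' : (0 : ℝ) < (cntAll (2 * K) : ℝ) := by exact_mod_cast h0
    have h11 : Real.log (cntAll (2 * K)) ≤ Real.log 4 + Real.log (cs (2 * K - 1)) := by
      rw [← Real.log_mul (by norm_num) (by linarith)]
      exact Real.log_le_log h0' hcnt
    nlinarith

end Pool.Agent.PT
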