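import Pool.Agent.Lib.MP_ed987a_lc.PT.D3

/-!
# TASK E4: the proportion by area

`cs n ≤ 4 * 3 ^ n`, so by `ncard_six_le` (`K = 4`, `ρ = 3`) the number of the words of length `L ≥ 15` is at most `2 ^ 57 * (2 L + 1) ^ 57 * 4 ^ 14 * 3 ^ ((L + 14) / 2)`, and for `L < 15` at most `4 ^ 15`. For
`L ≤ 2 n + 2`: `(L + 14) / 2 ≤ n + 8`. So the sum is at most `A * (n + 1) ^ 58 * 3 ^ n` with a constant `A`. `c * 3.19 ^ n ≤ areaAll n`. `(3 / 3.19) < 19 / 20`, so `(n + 1) ^ 58 * (3 / 3.19) ^ n ≤ B * (19 / 20) ^ n`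
with a constant `B` (polynomial times a power less than `1` is bounded).
-/

set_option autoImplicit false

open Filter Topology

namespace Pool.Agent.PT

/-- the number of the words of length `L` -/
private noncomputable def e4s (L : ℕ) : ℕ := {w : List (Fin 4) | w.length = L ∧ Loc w ∧ Six w}.ncard

private theorem e4_one (hcs : ∀ n, cs n ≤ 4 * 3 ^ n) : ∃ A : ℝ, 0 ≤ A ∧ ∀ L : ℕ,
    (e4s L : ℝ) ≤ A * ((2 * (L : ℝ) + 1) ^ 57 * 3 ^ ((L + 14) / 2)) := by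
  have h0 : 0 ≤ ∑ L ∈ Finset.range 15, (e4s L : ℝ) := Finset.sum_nonneg fun L _ => Nat.cast_nonneg _
  refine ⟨(∑ L ∈ Finset.range 15, (e4s L : ℝ)) + 2 ^ 57 * 4 ^ 14, by positivity, fun L => ?_⟩
  rcases lt_or_ge L 15 with hL | hL
  · have h1 : (e4s L : ℝ) ≤ ∑ L ∈ Finset.range 15, (e4s L : ℝ) :=
      Finset.single_le_sum (f := fun L => (e4s L : ℝ)) (fun _ _ => Nat.cast_nonneg _) (Finset.mem_range.2 hL)
    have h2 : (1 : ℝ) ≤ (2 * (L : ℝ) + 1) ^ 57 := one_le_pow₀ (by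
      have : (0 : ℝ) ≤ L := Nat.cast_nonneg _
      linarith)
    have h3 : (1 : ℝ) ≤ 3 ^ ((L + 14) / 2) := one_le_pow₀ (by norm_num)
    have h4 : (1 : ℝ) ≤ (2 * (L : ℝ) + 1) ^ 57 * 3 ^ ((L + 14) / 2) := one_le_mul_of_one_le_of_one_le h2 h3
    have h5 : (0 : ℝ) ≤ (∑ L ∈ Finset.range 15, (e4s L : ℝ)) + 2 ^ 57 * 4 ^ 14 := by positivity
    calc (e4s L : ℝ) ≤ (∑ L ∈ Finset.range 15, (e4s L : ℝ)) + 2 ^ 57 * 4 ^ 14 := by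
          have : (0 : ℝ) ≤ 2 ^ 57 * 4 ^ 14 := by positivity
          linarith
      _ ≤ _ := le_mul_of_one_le_right h5 h4
  · have hc : ∀ n, (cs n : ℝ) ≤ 4 * 3 ^ n := fun n => by exact_mod_cast hcs n
    have h1 := ncard_six_le (K := 4) (ρ := 3) (by norm_num) (by norm_num) hc hL
    have h2 : (e4s L : ℝ) ≤ 2 ^ 57 * (2 * (L : ℝ) + 1) ^ 57 * (4 ^ 14 * 3 ^ ((L + 14) / 2)) := h1
    have h3 : (0 : ℝ) ≤ (2 * (L : ℝ) + 1) ^ 57 * 3 ^ ((L + 14) / 2) := by positivity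
    have h4 := mul_nonneg h0 h3
    calc (e4s L : ℝ) ≤ 2 ^ 57 * (2 * (L : ℝ) + 1) ^ 57 * (4 ^ 14 * 3 ^ ((L + 14) / 2)) := h2
      _ = (2 ^ 57 * 4 ^ 14) * ((2 * (L : ℝ) + 1) ^ 57 * 3 ^ ((L + 14) / 2)) := by ring
      _ ≤ _ := by
        rw [add_mul]
        linarith

private theorem e4_sum (hcs : ∀ n, cs n ≤ 4 * 3 ^ n) : ∃ A : ℝ, 0 ≤ A ∧ ∀ n : ℕ,
    ∑ L ∈ Finset.range (2 * n + 3), (e4s L : ℝ) ≤ A * (((n : ℝ) + 1) ^ 58 * 3 ^ n) := by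
  obtain ⟨A, hA, h⟩ := e4_one hcs
  refine ⟨3 * A * 5 ^ 57 * 3 ^ 8, by positivity, fun n => ?_⟩
  have hn : (0 : ℝ) ≤ n := Nat.cast_nonneg n
  have h1 : ∀ L ∈ Finset.range (2 * n + 3), (e4s L : ℝ) ≤ A * ((5 * ((n : ℝ) + 1)) ^ 57 * 3 ^ (n + 8)) := by
    intro L hL
    rw [Finset.mem_range] at hL
    have h2 : (L : ℝ) ≤ 2 * n + 2 := by
      have : L ≤ 2 * n + 2 := by omega
      exact_mod_cast this
    have h3 : (2 * (L : ℝ) + 1) ^ 57 ≤ (5 * ((n : ℝ) + 1)) ^ 57 :=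
      pow_le_pow_left₀ (by positivity) (by linarith) 57
    have h4 : (3 : ℝ) ^ ((L + 14) / 2) ≤ 3 ^ (n + 8) := pow_le_pow_right₀ (by norm_num) (by omega)
    exact (h L).trans (mul_le_mul_of_nonneg_left (mul_le_mul h3 h4 (by positivity) (by positivity)) hA)
  have h2 := Finset.sum_le_card_nsmul _ _ _ h1
  rw [Finset.card_range, nsmul_eq_mul] at h2
  refine h2.trans ?_
  push_cast
  have h3 : (2 * (n : ℝ) + 3) ≤ 3 * ((n : ℝ) + 1) := by linarith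
  have h4 : 0 ≤ A * ((5 * ((n : ℝ) + 1)) ^ 57 * 3 ^ (n + 8)) := by positivity
  refine (mul_le_mul_of_nonneg_right h3 h4).trans (le_of_eq ?_)
  rw [mul_pow, pow_add (3 : ℝ) n 8, pow_succ ((n : ℝ) + 1) 57]
  ring

private theorem e4_bdd (r : ℝ) (h0 : 0 < r) (h1 : r < 1) : ∃ B : ℝ, 0 ≤ B ∧ ∀ n : ℕ, ((n : ℝ) + 1) ^ 58 * r ^ n ≤ B := by
  have h2 := tendsto_pow_const_mul_const_pow_of_abs_lt_one 58 (r := r) (by rw [abs_of_pos h0]; exact h1)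
  obtain ⟨B, hB⟩ := h2.bddAbove_range
  have h3 : ∀ n : ℕ, ((n : ℝ) + 1) ^ 58 * r ^ n ≤ B / r := by
    intro n
    rw [le_div_iff₀ h0]
    have h4 : ((n + 1 : ℕ) : ℝ) ^ 58 * r ^ (n + 1) ≤ B := hB ⟨n + 1, rfl⟩
    rw [pow_succ r n] at h4
    push_cast at h4
    linarith
  refine ⟨B / r, ?_, h3⟩
  have h4 := h3 0
  have h5 : (0 : ℝ) ≤ (((0 : ℕ) : ℝ) + 1) ^ 58 * r ^ 0 := by positivity
  linarith

theorem area_bound (hcs : ∀ n, cs n ≤ 4 * 3 ^ n) {c : ℝ} (hc : 0 < c) (harea : ∀ n : ℕ, 1 ≤ n → c * (3.19 : ℝ) ^ n ≤ areaAll n)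
    (un : ℕ → ℕ) (hun : ∀ n, un n ≤ ∑ L ∈ Finset.range (2 * n + 3), {w : List (Fin 4) | w.length = L ∧ Loc w ∧ Six w}.ncard) :
    ∃ C : ℝ, ∀ n : ℕ, 1 ≤ n → (un n : ℝ) ≤ C * (19 / 20 : ℝ) ^ n * areaAll n := by
  obtain ⟨A, hA, h⟩ := e4_sum hcs
  obtain ⟨B, hB, hB2⟩ := e4_bdd (3 / (3.19 * (19 / 20))) (by norm_num) (by norm_num)
  refine ⟨A * B / c, fun n hn => ?_⟩
  have h1 : (un n : ℝ) ≤ ∑ L ∈ Finset.range (2 * n + 3), (e4s L : ℝ) := by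
    have h2 : un n ≤ ∑ L ∈ Finset.range (2 * n + 3), e4s L := hun n
    exact_mod_cast h2
  have h2 : ((n : ℝ) + 1) ^ 58 * 3 ^ n ≤ B * ((3.19 : ℝ) ^ n * (19 / 20 : ℝ) ^ n) := by
    have h3 := mul_le_mul_of_nonneg_right (hB2 n) (by positivity : (0 : ℝ) ≤ (3.19 : ℝ) ^ n * (19 / 20 : ℝ) ^ n)
    have h4 : ((n : ℝ) + 1) ^ 58 * (3 / (3.19 * (19 / 20))) ^ n * ((3.19 : ℝ) ^ n * (19 / 20 : ℝ) ^ n)
        = ((n : ℝ) + 1) ^ 58 * 3 ^ n := by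
      rw [mul_assoc, ← mul_pow, ← mul_pow]
      congr 2
      norm_num
    rw [h4] at h3
    exact h3
  calc (un n : ℝ) ≤ A * (((n : ℝ) + 1) ^ 58 * 3 ^ n) := h1.trans (h n)
    _ ≤ A * (B * ((3.19 : ℝ) ^ n * (19 / 20 : ℝ) ^ n)) := mul_le_mul_of_nonneg_left h2 hA
    _ = A * B / c * (19 / 20 : ℝ) ^ n * (c * (3.19 : ℝ) ^ n) := by
      field_simp
    _ ≤ A * B / c * (19 / 20 : ℝ) ^ n * areaAll n := mul_le_mul_of_nonneg_left (harea n hn) (by positivity)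

end Pool.Agent.PT
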