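import Pool.Agent.Lib.MP_ed987a_lc.PT.Defs

/-!
# TASK F3: pieces from a set of cuts

Sort `C` increasingly (`C.sort (· ≤ ·)` or `Finset.orderEmbOfFin`): `c 0 = 0`, `c (k + 1)` = the `k`-th element of `C` for `k < C.card`, `c (k + 1) = w.length` for
`k ≥ C.card`. Then `c 14 = w.length` because `C.card ≤ 13`, `c k ≤ c (k + 1)`, and no element of `C` is strictly between `c k` and `c (k + 1)`.
-/

set_option autoImplicit false

namespace Pool.Agent.PT

theorem six_of_cuts (w : List (Fin 4)) (C : Finset ℕ) (hC : C.card ≤ 13) (hC' : ∀ c ∈ C, 0 < c ∧ c < w.length)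
    (h : ∀ s e, s ≤ e → e ≤ w.length → (∀ c ∈ C, ¬ (s < c ∧ c < e)) → Piece w s e) : Six w := by
  set m := C.card with hm
  set f : Fin m ↪o ℕ := C.orderEmbOfFin rfl with hf
  have hfC : ∀ i, f i ∈ C := fun i => Finset.orderEmbOfFin_mem C rfl i
  have hCf : ∀ x ∈ C, ∃ i, f i = x := by
    intro x hx
    have h1 : x ∈ Set.range f := by
      rw [hf, Finset.range_orderEmbOfFin]
      exact hx
    exact h1
  obtain ⟨g, hg⟩ : ∃ g : ℕ → ℕ, ∀ j, g j = if hj : j < m then f ⟨j, hj⟩ else w.length := ⟨_, fun _ => rfl⟩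
  have g1 : ∀ j (hj : j < m), g j = f ⟨j, hj⟩ := fun j hj => by rw [hg, dif_pos hj]
  have g2 : ∀ j, ¬ j < m → g j = w.length := fun j hj => by rw [hg, dif_neg hj]
  have gle : ∀ j, g j ≤ w.length := by
    intro j
    by_cases hj : j < m
    · rw [g1 j hj]; exact (hC' _ (hfC _)).2.le
    · rw [g2 j hj]
  have gmono : ∀ j, g j ≤ g (j + 1) := by
    intro j
    by_cases hj : j + 1 < m
    · rw [g1 j (by omega), g1 (j + 1) hj]
      apply f.monotone
      simp
    · rw [g2 (j + 1) hj]; exact gle j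
  refine ⟨fun k => Nat.casesOn k 0 g, rfl, ?_, ?_⟩
  · show g 13 = w.length
    exact g2 13 (by omega)
  · intro k _
    cases k with
    | zero =>
      show 0 ≤ g 0 ∧ Piece w 0 (g 0)
      refine ⟨Nat.zero_le _, h 0 (g 0) (Nat.zero_le _) (gle 0) ?_⟩
      rintro x hx ⟨h1, h2⟩
      obtain ⟨i, rfl⟩ := hCf x hx
      have h0 : 0 < m := lt_of_le_of_lt (Nat.zero_le _) i.2
      rw [g1 0 h0] at h2
      have h3 := f.lt_iff_lt.1 h2
      rw [Fin.lt_def] at h3
      simp at h3
    | succ j =>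
      show g j ≤ g (j + 1) ∧ Piece w (g j) (g (j + 1))
      refine ⟨gmono j, h _ _ (gmono j) (gle _) ?_⟩
      rintro x hx ⟨h1, h2⟩
      obtain ⟨i, rfl⟩ := hCf x hx
      have hj : j < m := by
        by_contra hj
        rw [g2 j hj] at h1
        have := (hC' _ (hfC i)).2
        omega
      rw [g1 j hj] at h1
      have h3 := f.lt_iff_lt.1 h1
      rw [Fin.lt_def] at h3
      simp only at h3
      have hj1 : j + 1 < m := by
        have := i.2
        omega
      rw [g1 (j + 1) hj1] at h2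
      have h4 := f.lt_iff_lt.1 h2
      rw [Fin.lt_def] at h4
      simp only at h4
      omega

end Pool.Agent.PT
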