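import Pool.Agent.Lib.MP_ed987a_lc.PT.Bas

/-!
# TASK G1: a set of edges with even degrees is a boundary

`E p d`: the edge from `p` in the direction `d` is in the set (both directions: `hsym`). `EvenAt E p`: the number of edges
at `p` is even. All edges are at heights `≥ M`.
`U = {c | Odd (number of h with M ≤ h ≤ c.2 and E (c.1, h) 0)}` (horizontal edges below the cell `c`; use
`((Finset.Icc M c.2).filter fun h => E (c.1, h) 0).card` with `Classical`).
The edge `(x, y)` in direction `0` separates the cells `(x, y)` (`co 0`) and `(x, y - 1)` (`co 3`): their numbers differ by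
`1` if it is in `E` (then `M ≤ y`) and by `0` otherwise. So `BE U (x, y) 0 ↔ E (x, y) 0`.
The edge `(x, y)` in direction `1` separates `(x - 1, y)` (`co 1`) and `(x, y)` (`co 0`). Claim: `((x, y) ∈ U ↔ (x - 1, y) ∈ U) ↔
¬ E (x, y) 1`, by induction on `y` from `y < M` (both sides: not in `U`, no edge) upwards (`Int.le_induction` or
`Int.induction_on`): from `y - 1` to `y` the membership of `(x, y)` changes iff `E (x, y) 0`, that of `(x - 1, y)` iff
`E (x - 1, y) 0` iff `E (x, y) 2` (`hsym`), and by `EvenAt E (x, y)` the number of `E (x, y) 0`, `E (x, y) 1`, `E (x, y) 2`,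
`E (x, y) 3` is even, where `E (x, y) 3 ↔ E (x, y - 1) 1`.
The directions `2`, `3` follow from `0`, `1` at the other end of the edge (`BE_rev`, `hsym`).
-/

set_option autoImplicit false

namespace Pool.Agent.PT

/-- the number of edges at `p` is even -/
def EvenAt (E : V → Fin 4 → Prop) (p : V) : Prop := (E p 0 ↔ E p 1) ↔ (E p 2 ↔ E p 3)

open Classical in
/-- the number of the horizontal edges below a cell -/
private noncomputable def G1cnt (E : V → Fin 4 → Prop) (M x y : ℤ) : ℕ :=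
  ((Finset.Icc M y).filter fun h => E (x, h) 0).card

private theorem G1cnt_low (E : V → Fin 4 → Prop) (M x y : ℤ) (h : y < M) : G1cnt E M x y = 0 := by
  unfold G1cnt
  rw [Finset.Icc_eq_empty (by omega)]
  simp

private theorem G1cnt_pos (E : V → Fin 4 → Prop) (M x y : ℤ) (hlow : ∀ p d, E p d → M ≤ p.2) (h : E (x, y) 0) :
    G1cnt E M x y = G1cnt E M x (y - 1) + 1 := by
  classical
  have hM : M ≤ y := hlow _ _ h
  unfold G1cnt
  have h1 : Finset.Icc M y = insert y (Finset.Icc M (y - 1)) := by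
    ext z
    simp only [Finset.mem_Icc, Finset.mem_insert]
    omega
  rw [h1, Finset.filter_insert, if_pos h, Finset.card_insert_of_notMem]
  simp

private theorem G1cnt_neg (E : V → Fin 4 → Prop) (M x y : ℤ) (h : ¬ E (x, y) 0) :
    G1cnt E M x y = G1cnt E M x (y - 1) := by
  classical
  rcases lt_or_ge y M with hM | hM
  · rw [G1cnt_low E M x y hM, G1cnt_low E M x (y - 1) (by omega)]
  unfold G1cnt
  have h1 : Finset.Icc M y = insert y (Finset.Icc M (y - 1)) := by
    ext z
    simp only [Finset.mem_Icc, Finset.mem_insert]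
    omega
  rw [h1, Finset.filter_insert, if_neg h]

private theorem G1step (E : V → Fin 4 → Prop) (M x y : ℤ) (hlow : ∀ p d, E p d → M ≤ p.2) :
    (Odd (G1cnt E M x y) ↔ Odd (G1cnt E M x (y - 1))) ↔ ¬ E (x, y) 0 := by
  by_cases h : E (x, y) 0
  · rw [G1cnt_pos E M x y hlow h, Nat.odd_add_one]
    tauto
  · rw [G1cnt_neg E M x y h]
    tauto

private theorem G1vert (E : V → Fin 4 → Prop) (hsym : ∀ p d, E (p + vec d) (d + 2) ↔ E p d) (M : ℤ)
    (hlow : ∀ p d, E p d → M ≤ p.2) (hev : ∀ p, EvenAt E p) (x : ℤ) (n : ℕ) :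
    (Odd (G1cnt E M (x - 1) (M - 1 + n)) ↔ Odd (G1cnt E M x (M - 1 + n))) ↔ ¬ E (x, M - 1 + n) 1 := by
  induction n with
  | zero =>
    rw [G1cnt_low E M (x - 1) _ (by simp), G1cnt_low E M x _ (by simp)]
    have : ¬ E (x, M - 1 + ((0 : ℕ) : ℤ)) 1 := by
      intro h
      have := hlow _ _ h
      simp at this
    tauto
  | succ n ih =>
    have e : M - 1 + ((n + 1 : ℕ) : ℤ) - 1 = M - 1 + (n : ℤ) := by push_cast; ring
    have h1 := G1step E M (x - 1) (M - 1 + ((n + 1 : ℕ) : ℤ)) hlow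
    have h2 := G1step E M x (M - 1 + ((n + 1 : ℕ) : ℤ)) hlow
    rw [e] at h1 h2
    have h3 := hev (x, M - 1 + ((n + 1 : ℕ) : ℤ))
    unfold EvenAt at h3
    have h4 := hsym (x - 1, M - 1 + ((n + 1 : ℕ) : ℤ)) 0
    have h5 := hsym (x, M - 1 + (n : ℤ)) 1
    have e4 : ((x - 1, M - 1 + ((n + 1 : ℕ) : ℤ)) : V) + vec 0 = (x, M - 1 + ((n + 1 : ℕ) : ℤ)) := by
      ext <;> simp [vec]
    have e5 : ((x, M - 1 + (n : ℤ)) : V) + vec 1 = (x, M - 1 + ((n + 1 : ℕ) : ℤ)) := by
      ext
      · simp [vec]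
      · simp [vec]
        ring
    have f4 : (0 : Fin 4) + 2 = 2 := rfl
    have f5 : (1 : Fin 4) + 2 = 3 := rfl
    rw [e4, f4] at h4
    rw [e5, f5] at h5
    tauto

theorem exists_region (E : V → Fin 4 → Prop) (hsym : ∀ p d, E (p + vec d) (d + 2) ↔ E p d) (M : ℤ)
    (hlow : ∀ p d, E p d → M ≤ p.2) (hev : ∀ p, EvenAt E p) :
    ∃ U : Set V, (∀ p d, BE U p d ↔ E p d) ∧ ∀ c ∈ U, ∃ h, M ≤ h ∧ h ≤ c.2 ∧ E (c.1, h) 0 := by
  classical
  have H0 : ∀ x y : ℤ, BE {c : V | Odd (G1cnt E M c.1 c.2)} (x, y) 0 ↔ E (x, y) 0 := by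
    intro x y
    have h := G1step E M x y hlow
    have e0 : ((x, y) : V) + co 0 = (x, y) := by ext <;> simp [co]
    have e3 : ((x, y) : V) + co (0 + 3) = (x, y - 1) := by
      have : (0 : Fin 4) + 3 = 3 := rfl
      rw [this]
      ext <;> simp [co] <;> ring
    unfold BE
    rw [e0, e3]
    simp only [Set.mem_setOf_eq]
    tauto
  have H1 : ∀ x y : ℤ, BE {c : V | Odd (G1cnt E M c.1 c.2)} (x, y) 1 ↔ E (x, y) 1 := by
    intro x y
    have h : (Odd (G1cnt E M (x - 1) y) ↔ Odd (G1cnt E M x y)) ↔ ¬ E (x, y) 1 := by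
      rcases lt_or_ge y (M - 1) with hM | hM
      · rw [G1cnt_low E M (x - 1) _ (by omega), G1cnt_low E M x _ (by omega)]
        have : ¬ E (x, y) 1 := by
          intro h
          have := hlow _ _ h
          simp only at this
          omega
        tauto
      · obtain ⟨n, hn⟩ := Int.le.dest hM
        have := G1vert E hsym M hlow hev x n
        rw [hn] at this
        exact this
    have e1 : ((x, y) : V) + co 1 = (x - 1, y) := by ext <;> simp [co] <;> ring
    have e0 : ((x, y) : V) + co (1 + 3) = (x, y) := by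
      have : (1 : Fin 4) + 3 = 0 := rfl
      rw [this]
      ext <;> simp [co]
    unfold BE
    rw [e1, e0]
    simp only [Set.mem_setOf_eq]
    tauto
  refine ⟨{c | Odd (G1cnt E M c.1 c.2)}, ?_, ?_⟩
  · rintro ⟨x, y⟩ d
    have h4 : ∀ d : Fin 4, d = 0 ∨ d = 1 ∨ d = 2 ∨ d = 3 := by decide
    rcases h4 d with rfl | rfl | rfl | rfl
    · exact H0 x y
    · exact H1 x y
    · have e : ((x, y) : V) = (x - 1, y) + vec 0 := by ext <;> simp [vec]
      have f : (2 : Fin 4) = 0 + 2 := rfl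
      rw [e, f, BE_rev, hsym]
      exact H0 (x - 1) y
    · have e : ((x, y) : V) = (x, y - 1) + vec 1 := by ext <;> simp [vec]
      have f : (3 : Fin 4) = 1 + 2 := rfl
      rw [e, f, BE_rev, hsym]
      exact H1 x (y - 1)
  · intro c hc
    have hc' : Odd (G1cnt E M c.1 c.2) := hc
    have h1 : 0 < G1cnt E M c.1 c.2 := hc'.pos
    unfold G1cnt at h1
    rw [Finset.card_pos] at h1
    obtain ⟨h, hh⟩ := h1
    rw [Finset.mem_filter, Finset.mem_Icc] at hh
    exact ⟨h, hh.1.1, hh.1.2, hh.2⟩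

end Pool.Agent.PT
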