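import Pool.Agent.Lib.MP_ed987a_lc.PT.Defs

/-!
# TASK P2: the test for concatenations of 14 pieces

(`pieceB_iff`) for `s ≤ e ≤ w.length`: the bounded search over all labels; `dirN` corresponds to `Lab.dir` (`(r + 4 - d) % 4 = r - d`, `(d + r) % 4 = d + r` in `Fin 4`), `getD` of the mapped list.
(`reachB_iff`) induction on `k`: `e ∈ reachB u k` iff `e ≤ L` and there are `c 0 = 0 ≤ c 1 ≤ ... ≤ c k = e` such that all `Piece w (c j) (c (j + 1))`. (For `k = 0`: `e = 0`.)
-/

set_option autoImplicit false

namespace Pool.Agent.PT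

/-- the image of a direction -/
def dirN (ρ : Bool) (r d : ℕ) : ℕ := if ρ = true then (r + 4 - d) % 4 else (d + r) % 4

/-- the law at the position `i` -/
def lawB (u : List ℕ) (ε : Bool) (α : ℕ) (ρ : Bool) (r i : ℕ) : Bool :=
  if ε = true then
    decide (u.length ≤ α + i) && decide (α + i < 2 * u.length) && decide (u.getD i 0 = dirN ρ r (u.getD (α + i - u.length) 0))
  else decide (i ≤ α) && decide (α < i + u.length) && decide (u.getD i 0 = dirN ρ r (u.getD (α - i) 0))

/-- the label `(ε, α, ρ, r)` is possible for the piece from `s` to `e` -/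
def labB (u : List ℕ) (s e : ℕ) (ε : Bool) (α : ℕ) (ρ : Bool) (r : ℕ) : Bool :=
  ((List.range u.length).all fun i => !(decide (s ≤ i) && decide (i < e)) || lawB u ε α ρ r i) &&
    (!(ε && decide (α = u.length)) || decide (e ≤ s + 1))

/-- the positions from `s` to `e` are a piece -/
def pieceB (u : List ℕ) (s e : ℕ) : Bool :=
  [true, false].any fun ε => [true, false].any fun ρ => (List.range 4).any fun r =>
    (List.range (2 * u.length + 1)).any fun α => labB u s e ε α ρ r

/-- the positions which can be reached with `k` pieces -/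
def reachB (u : List ℕ) : ℕ → List ℕ
  | 0 => [0]
  | k + 1 => (List.range (u.length + 1)).filter fun e => (reachB u k).any fun s => decide (s ≤ e) && pieceB u s e

/-- the test -/
def sixB (u : List ℕ) : Bool := decide (u.length ∈ reachB u 14)

private theorem P2_dirN (ρ : Bool) (r d : Fin 4) :
    dirN ρ (r : ℕ) (d : ℕ) = (((if ρ = true then r - d else d + r) : Fin 4) : ℕ) := by
  revert ρ r d; decide

private theorem P2_u (w : List (Fin 4)) : (w.map fun d => (d : ℕ)) = List.map (fun d : Fin 4 => (d : ℕ)) w := by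
  induction w with
  | nil => rfl
  | cons a w ih => simpa using ih

private theorem P2_getD (w : List (Fin 4)) (j : ℕ) :
    (List.map (fun d : Fin 4 => (d : ℕ)) w).getD j 0 = ((w.getD j 0 : Fin 4) : ℕ) := by
  have h := List.getD_map (l := w) (n := j) (d := (0 : Fin 4)) (f := fun d : Fin 4 => (d : ℕ))
  simpa using h

private theorem P2_lawB (w : List (Fin 4)) (ε : Bool) (α : ℕ) (ρ : Bool) (r : Fin 4) (i : ℕ) :
    lawB (List.map (fun d : Fin 4 => (d : ℕ)) w) ε α ρ (r : ℕ) i = true ↔
      (Lab.ok (ε, α, ρ, r) w.length i ∧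
        w.getD i 0 = Lab.dir (ε, α, ρ, r) (w.getD (Lab.pos (ε, α, ρ, r) w.length i) 0)) := by
  unfold lawB Lab.ok Lab.dir Lab.pos
  rw [P2_getD, P2_getD, P2_getD, P2_dirN, P2_dirN]
  simp only [List.length_map]
  cases ε
  · simp only [Bool.false_eq_true, if_false, Bool.and_eq_true, decide_eq_true_eq, Fin.ext_iff]
  · simp only [if_true, Bool.and_eq_true, decide_eq_true_eq, Fin.ext_iff]

private theorem P2_labB (w : List (Fin 4)) {s e : ℕ} (he : e ≤ w.length) (ε : Bool) (α : ℕ) (ρ : Bool) (r : Fin 4) :
    labB (List.map (fun d : Fin 4 => (d : ℕ)) w) s e ε α ρ (r : ℕ) = true ↔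
      ((∀ i, s ≤ i → i < e → Lab.ok (ε, α, ρ, r) w.length i ∧
        w.getD i 0 = Lab.dir (ε, α, ρ, r) (w.getD (Lab.pos (ε, α, ρ, r) w.length i) 0)) ∧
        (ε = true → α = w.length → e ≤ s + 1)) := by
  unfold labB
  rw [Bool.and_eq_true, List.all_eq_true]
  simp only [List.length_map, List.mem_range]
  constructor
  · rintro ⟨h1, h2⟩
    refine ⟨fun i hsi hie => ?_, fun hε hα => ?_⟩
    · have h := h1 i (by omega)
      simp only [hsi, hie, decide_true, Bool.and_self, Bool.not_true, Bool.false_or] at h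
      exact (P2_lawB w ε α ρ r i).mp h
    · simp only [hε, hα, decide_true, Bool.and_self, Bool.not_true, Bool.false_or, decide_eq_true_eq] at h2
      exact h2
  · rintro ⟨h1, h2⟩
    refine ⟨fun i _ => ?_, ?_⟩
    · by_cases hh : s ≤ i ∧ i < e
      · rw [(P2_lawB w ε α ρ r i).mpr (h1 i hh.1 hh.2)]
        simp
      · have h3 : (decide (s ≤ i) && decide (i < e)) = false := by
          rw [Bool.eq_false_iff]
          intro h4
          rw [Bool.and_eq_true, decide_eq_true_eq, decide_eq_true_eq] at h4
          exact hh h4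
        rw [h3]
        simp
    · by_cases hh : ε = true ∧ α = w.length
      · have := h2 hh.1 hh.2
        simp [this]
      · have h3 : (ε && decide (α = w.length)) = false := by
          rw [Bool.eq_false_iff]
          intro h4
          rw [Bool.and_eq_true, decide_eq_true_eq] at h4
          exact hh h4
        rw [h3]
        simp

theorem pieceB_iff (w : List (Fin 4)) {s e : ℕ} (he : e ≤ w.length) :
    pieceB (w.map fun d => (d : ℕ)) s e = true ↔ Piece w s e := by
  rw [P2_u]
  unfold pieceB Piece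
  simp only [List.any_eq_true, List.mem_range, List.length_map]
  constructor
  · rintro ⟨ε, -, ρ, -, r, hr, α, hα, h⟩
    have h' := (P2_labB w he ε α ρ ⟨r, hr⟩).mp h
    exact ⟨(ε, α, ρ, ⟨r, hr⟩), by show α ≤ _; omega, h'.1, h'.2⟩
  · rintro ⟨⟨ε, α, ρ, r⟩, h1, h2, h3⟩
    have h1' : α ≤ 2 * w.length := h1
    refine ⟨ε, ?_, ρ, ?_, (r : ℕ), r.2, α, by omega, (P2_labB w he ε α ρ r).mpr ⟨h2, h3⟩⟩
    · cases ε <;> simp
    · cases ρ <;> simp

theorem reachB_iff (w : List (Fin 4)) (k e : ℕ) :
    e ∈ reachB (w.map fun d => (d : ℕ)) k ↔ e ≤ w.length ∧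
      ∃ c : ℕ → ℕ, c 0 = 0 ∧ c k = e ∧ ∀ j < k, c j ≤ c (j + 1) ∧ Piece w (c j) (c (j + 1)) := by
  have hpb : ∀ s e, e ≤ w.length → (pieceB (List.map (fun d : Fin 4 => (d : ℕ)) w) s e = true ↔ Piece w s e) := by
    intro s e he
    rw [← P2_u]
    exact pieceB_iff w he
  rw [P2_u]
  induction k generalizing e with
  | zero =>
    simp only [reachB, List.mem_singleton]
    constructor
    · intro h
      exact ⟨by omega, fun _ => 0, rfl, h.symm, fun j hj => absurd hj (by omega)⟩
    · rintro ⟨_, c, h1, h2, _⟩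
      omega
  | succ k ih =>
    simp only [reachB, List.mem_filter, List.mem_range, List.length_map, List.any_eq_true, Bool.and_eq_true,
      decide_eq_true_eq]
    constructor
    · rintro ⟨h1, s, hs, hse, hp⟩
      obtain ⟨hsL, c, hc0, hck, hc⟩ := (ih s).mp hs
      have he : e ≤ w.length := by omega
      refine ⟨he, fun j => if j ≤ k then c j else e, ?_, ?_, ?_⟩
      · simp [hc0]
      · simp
      · intro j hj
        rcases Nat.lt_or_ge j k with hjk | hjk
        · have h2 : j ≤ k := by omega
          have h3 : j + 1 ≤ k := by omega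
          simp only [h2, h3, if_true]
          exact hc j hjk
        · have h2 : j = k := by omega
          subst h2
          have h3 : ¬ (j + 1 ≤ j) := by omega
          simp only [le_refl, if_true, h3, if_false, hck]
          exact ⟨hse, (hpb _ _ he).mp hp⟩
    · rintro ⟨he, c, hc0, hck, hc⟩
      have hk := hc k (by omega)
      rw [hck] at hk
      refine ⟨by omega, c k, (ih (c k)).mpr ⟨by omega, c, hc0, rfl, fun j hj => hc j (by omega)⟩, hk.1,
        (hpb _ _ he).mpr hk.2⟩

theorem sixB_iff (w : List (Fin 4)) : sixB (w.map fun d => (d : ℕ)) = true ↔ Six w := by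
  unfold sixB Six
  have hl : (w.map fun d => (d : ℕ)).length = w.length := by rw [P2_u, List.length_map]
  rw [decide_eq_true_eq, hl, reachB_iff]
  constructor
  · rintro ⟨_, c, h⟩
    exact ⟨c, h⟩
  · rintro ⟨c, h⟩
    exact ⟨le_refl _, c, h⟩

end Pool.Agent.PT
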