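import Pool.Agent.Lib.MP_ed987a_lc.PT.T1

/-!
# TASK T3: the local form of the Euler characteristic

`loc t v = a - 2 e + 4 b`: `a` = number of the quadrants `j` at `v` with `v + co j ∈ t`, `e` = number of the `j` with `v + co j ∈ t` and
`v + co (j + 1) ∈ t`, `b = 1` if all four cells are in `t`.
(`sum_loc`) `∑_v a = ∑_j #{v ∈ X : v + co j ∈ t} = 4 * card t` (`X` contains all corners, `hX`). `∑_v e`: for `j = 0` the pairs
`(v, v - (1, 0))`, for `j = 1` the pairs `(v - (1, 0), v - (1, 1))`, for `j = 2` `(v - (1, 1), v - (0, 1))`, for `j = 3` `(v - (0, 1), v)`: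
together twice the horizontal and twice the vertical adjacencies. `∑_v b` = number of the blocks (base `v - (1, 1)`).
-/

set_option autoImplicit false

namespace Pool.Agent.PT

open Classical in
/-- the local contribution of the point `v` -/
noncomputable def loc (t : Set V) (v : V) : ℤ :=
  ((Finset.univ.filter fun j : Fin 4 => v + co j ∈ t).card : ℤ) -
    2 * (Finset.univ.filter fun j : Fin 4 => v + co j ∈ t ∧ v + co (j + 1) ∈ t).card +
    4 * (if ∀ j : Fin 4, v + co j ∈ t then 1 else 0)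

private theorem T3_shift (t X : Finset V) (j : Fin 4) (hX : ∀ v, v + co j ∈ t → v ∈ X) (P Q : V → Prop)
    [DecidablePred P] [DecidablePred Q] (hPQ : ∀ v, P v ↔ (v + co j ∈ t ∧ Q (v + co j))) :
    ∑ v ∈ X, (if P v then (1 : ℤ) else 0) = ((t.filter Q).card : ℤ) := by
  rw [Finset.sum_boole]
  congr 1
  refine Finset.card_bij (fun v _ => v + co j) ?_ ?_ ?_
  · intro v hv
    rw [Finset.mem_filter] at hv
    rw [Finset.mem_filter]
    exact (hPQ v).1 hv.2
  · intro v _ w _ h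
    exact add_right_cancel h
  · intro c hc
    rw [Finset.mem_filter] at hc
    have h1 : c - co j + co j = c := by abel
    refine ⟨c - co j, ?_, h1⟩
    rw [Finset.mem_filter]
    refine ⟨hX _ (by rw [h1]; exact hc.1), (hPQ _).2 ?_⟩
    rw [h1]
    exact hc

theorem sum_loc (t : Finset V) (X : Finset V) (hX : ∀ v j, v + co j ∈ t → v ∈ X) :
    ∑ v ∈ X, loc (t : Set V) v = 4 * chi t := by
  classical
  have c0 : ∀ v : V, v + co 0 = (v.1, v.2) := fun v => by simp [co]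
  have c1 : ∀ v : V, v + co 1 = (v.1 - 1, v.2) := fun v => by
    ext <;> simp [co, sub_eq_add_neg]
  have c2 : ∀ v : V, v + co 2 = (v.1 - 1, v.2 - 1) := fun v => by
    ext <;> simp [co, sub_eq_add_neg]
  have c3 : ∀ v : V, v + co 3 = (v.1, v.2 - 1) := fun v => by
    ext <;> simp [co, sub_eq_add_neg]
  have hloc : ∀ v : V, loc (t : Set V) v =
      (if v + co 0 ∈ t then (1 : ℤ) else 0) + (if v + co 1 ∈ t then 1 else 0) +
      (if v + co 2 ∈ t then 1 else 0) + (if v + co 3 ∈ t then 1 else 0) -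
      2 * ((if v + co 0 ∈ t ∧ v + co 1 ∈ t then 1 else 0) + (if v + co 1 ∈ t ∧ v + co 2 ∈ t then 1 else 0) +
        (if v + co 2 ∈ t ∧ v + co 3 ∈ t then 1 else 0) + (if v + co 3 ∈ t ∧ v + co 0 ∈ t then 1 else 0)) +
      4 * (if v + co 0 ∈ t ∧ v + co 1 ∈ t ∧ v + co 2 ∈ t ∧ v + co 3 ∈ t then 1 else 0) := by
    intro v
    unfold loc
    rw [Finset.card_filter, Finset.card_filter]
    push_cast
    rw [Fin.sum_univ_four, Fin.sum_univ_four]
    have e1 : (0 : Fin 4) + 1 = 1 := rfl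
    have e2 : (1 : Fin 4) + 1 = 2 := rfl
    have e3 : (2 : Fin 4) + 1 = 3 := rfl
    have e4 : (3 : Fin 4) + 1 = 0 := rfl
    rw [e1, e2, e3, e4]
    have hall : (∀ j : Fin 4, v + co j ∈ t) ↔ (v + co 0 ∈ t ∧ v + co 1 ∈ t ∧ v + co 2 ∈ t ∧ v + co 3 ∈ t) := by
      constructor
      · intro h
        exact ⟨h 0, h 1, h 2, h 3⟩
      · rintro ⟨h0, h1, h2, h3⟩ j
        fin_cases j
        · exact h0
        · exact h1
        · exact h2
        · exact h3
    simp only [Finset.mem_coe, hall]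
  rw [Finset.sum_congr rfl fun v _ => hloc v]
  rw [Finset.sum_add_distrib, Finset.sum_sub_distrib, ← Finset.mul_sum, ← Finset.mul_sum]
  simp only [Finset.sum_add_distrib]
  have a0 : ∑ v ∈ X, (if v + co 0 ∈ t then (1 : ℤ) else 0) = ((t.filter fun _ => True).card : ℤ) :=
    T3_shift t X 0 (fun v h => hX v 0 h) _ _ (fun v => by simp)
  have a1 : ∑ v ∈ X, (if v + co 1 ∈ t then (1 : ℤ) else 0) = ((t.filter fun _ => True).card : ℤ) :=
    T3_shift t X 1 (fun v h => hX v 1 h) _ _ (fun v => by simp)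
  have a2 : ∑ v ∈ X, (if v + co 2 ∈ t then (1 : ℤ) else 0) = ((t.filter fun _ => True).card : ℤ) :=
    T3_shift t X 2 (fun v h => hX v 2 h) _ _ (fun v => by simp)
  have a3 : ∑ v ∈ X, (if v + co 3 ∈ t then (1 : ℤ) else 0) = ((t.filter fun _ => True).card : ℤ) :=
    T3_shift t X 3 (fun v h => hX v 3 h) _ _ (fun v => by simp)
  have b0 : ∑ v ∈ X, (if v + co 0 ∈ t ∧ v + co 1 ∈ t then (1 : ℤ) else 0) =
      ((t.filter fun c => c + (1, 0) ∈ t).card : ℤ) :=
    T3_shift t X 1 (fun v h => hX v 1 h) _ _ (fun v => by rw [c0, c1]; simp [and_comm])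
  have b1 : ∑ v ∈ X, (if v + co 1 ∈ t ∧ v + co 2 ∈ t then (1 : ℤ) else 0) =
      ((t.filter fun c => c + (0, 1) ∈ t).card : ℤ) :=
    T3_shift t X 2 (fun v h => hX v 2 h) _ _ (fun v => by rw [c1, c2]; simp [and_comm])
  have b2 : ∑ v ∈ X, (if v + co 2 ∈ t ∧ v + co 3 ∈ t then (1 : ℤ) else 0) =
      ((t.filter fun c => c + (1, 0) ∈ t).card : ℤ) :=
    T3_shift t X 2 (fun v h => hX v 2 h) _ _ (fun v => by rw [c2, c3]; simp)
  have b3 : ∑ v ∈ X, (if v + co 3 ∈ t ∧ v + co 0 ∈ t then (1 : ℤ) else 0) =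
      ((t.filter fun c => c + (0, 1) ∈ t).card : ℤ) :=
    T3_shift t X 3 (fun v h => hX v 3 h) _ _ (fun v => by rw [c3, c0]; simp)
  have d0 : ∑ v ∈ X, (if v + co 0 ∈ t ∧ v + co 1 ∈ t ∧ v + co 2 ∈ t ∧ v + co 3 ∈ t then (1 : ℤ) else 0) =
      ((t.filter fun c => c + (1, 0) ∈ t ∧ c + (0, 1) ∈ t ∧ c + (1, 1) ∈ t).card : ℤ) :=
    T3_shift t X 2 (fun v h => hX v 2 h) _ _ (fun v => by rw [c0, c1, c2, c3]; simp; tauto)
  rw [a0, a1, a2, a3, b0, b1, b2, b3, d0]
  unfold chi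
  rw [Finset.filter_true_of_mem (fun _ _ => trivial)]
  ring

end Pool.Agent.PT
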