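import Pool.Agent.Lib.MP_ed987a_lc.PT.Bas

/-!
# Definitions for the block W (Hammersley and Welsh: bridges have the same growth as self-avoiding walks)

`rv w`: the walk `w` run backwards. `rx w`, `ry w`: the walk `w` reflected, `x → -x` and `y → -y`.
`bsp n a`: the number of bridges of length `n` and span `a`. `hsp n a`: the number of half plane walks of length `n` with
span at most `a`. `qn n`: the number of sets of positive integers with sum at most `n`.
-/

set_option autoImplicit false

namespace Pool.Agent.PT

/-- the walk `w` run backwards -/
def rv (w : List (Fin 4)) : List (Fin 4) := w.reverse.map fun d => d + 2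

/-- the walk reflected by `x → -x` -/
def rx (w : List (Fin 4)) : List (Fin 4) := w.map fun d => 2 - d

/-- the walk reflected by `y → -y` -/
def ry (w : List (Fin 4)) : List (Fin 4) := w.map fun d => -d

/-- the number of bridges of length `n` and span `a` -/
noncomputable def bsp (n a : ℕ) : ℕ :=
  {w : List (Fin 4) | w.length = n ∧ Bridge w ∧ (en w).1 = (a : ℤ)}.ncard

/-- the number of half plane walks of length `n` and span at most `a` -/
noncomputable def hsp (n a : ℕ) : ℕ :=
  {w : List (Fin 4) | w.length = n ∧ Half w ∧ ∀ i, (pt w i).1 ≤ (a : ℤ)}.ncard

/-- the number of sets of positive integers with sum at most `n` -/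
def qn (n : ℕ) : ℕ := ((Finset.Icc 1 n).powerset.filter fun A => ∑ a ∈ A, a ≤ n).card

end Pool.Agent.PT
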